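import Pool.Agent.Lib_helper42.Rat.Cases26

/-!
The case (28,18) of problem MP_88c4fb_an.
-/

set_option autoImplicit false

namespace Pool.Agent.RatRec

/-- Trichotomy at a large term. -/
theorem tri {C δ κ η H X a P b c d e : ℝ} (hC : 1 ≤ C) (_hδ : 0 < δ) (hκ : 0 < κ) (hη : 0 < η)
    (ha : 0 ≤ a) (hP : 0 ≤ P) (_hb : 0 ≤ b) (hc : 0 ≤ c) (_hd : 0 ≤ d)
    (hX : κ * H ≤ X) (hH : 0 < H)
    (L0 : C ≤ X → X * a ≤ C * (P + b) ∧ X * c ≤ C * (P + b))
    (S1 : C * a ≤ 1 → b ≤ C * a * P ∧ c ≤ C * a * P ∧ d ≤ C * a * P)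
    (S1' : C * a ≤ 1 → δ ≤ C * a * P)
    (L2 : C ≤ P → P * b ≤ C * (c + d) ∧ P * e ≤ C * (c + d))
    (S3' : C * b ≤ 1 → δ ≤ C * b * c)
    (h1 : 4 * C ^ 4 * η ≤ κ) (h2 : 8 * C ^ 5 * η ^ 2 < δ * κ ^ 2)
    (h3 : 2 * C ^ 4 ≤ κ * δ * H) (h4 : C ≤ κ * H) :
    η * H ≤ P ∨ (1 < C * a ∧ κ * H ≤ 2 * C ^ 2 * b) := by
  have hC0 : 0 < C := by linarith
  have p1 : ∀ m : ℕ, 1 ≤ C ^ m := fun m => one_le_pow₀ hC
  have pm : ∀ m n : ℕ, m ≤ n → C ^ m ≤ C ^ n := fun m n hmn => pow_le_pow_right₀ hC hmn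
  obtain ⟨l1, l2⟩ := L0 (h4.trans hX)
  have hX0 : 0 < X := by
    have : 0 < κ * H := by positivity
    linarith
  by_contra hcon
  push Not at hcon
  obtain ⟨hPη, hcon⟩ := hcon
  have g1 : 2 * C ^ 2 * η ≤ κ := by
    have := mul_le_mul_of_nonneg_right (pm 2 4 (by norm_num)) hη.le
    nlinarith [mul_pos (pow_pos hC0 4) hη]
  by_cases hbP : b ≤ P
  · have u1 : κ * H * a ≤ 2 * C * P := by
      have : κ * H * a ≤ X * a := mul_le_mul_of_nonneg_right hX ha
      nlinarith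
    have u2 : κ * H * c ≤ 2 * C * P := by
      have : κ * H * c ≤ X * c := mul_le_mul_of_nonneg_right hX hc
      nlinarith
    have v1 : κ * a ≤ 2 * C * η := by
      have : H * (κ * a) ≤ H * (2 * C * η) := by nlinarith
      exact le_of_mul_le_mul_left this hH
    have v2 : κ * c ≤ 2 * C * η := by
      have : H * (κ * c) ≤ H * (2 * C * η) := by nlinarith
      exact le_of_mul_le_mul_left this hH
    have hCa : C * a ≤ 1 := by
      have : κ * (C * a) ≤ κ * 1 := by
        calc κ * (C * a) = C * (κ * a) := by ring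
          _ ≤ C * (2 * C * η) := mul_le_mul_of_nonneg_left v1 hC0.le
          _ = 2 * C ^ 2 * η := by ring
          _ ≤ κ * 1 := by linarith
      exact le_of_mul_le_mul_left this hκ
    obtain ⟨-, s2, s3⟩ := S1 hCa
    have s4 := S1' hCa
    have hPC : C ≤ P := by
      by_contra hlt
      push Not at hlt
      have w1 : κ * δ * H ≤ C * (κ * H * a) * P := by
        calc κ * δ * H = κ * H * δ := by ring
          _ ≤ κ * H * (C * a * P) := mul_le_mul_of_nonneg_left s4 (by positivity)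
          _ = C * (κ * H * a) * P := by ring
      have w2 : C * (κ * H * a) * P ≤ C * (2 * C * P) * P :=
        mul_le_mul_of_nonneg_right (mul_le_mul_of_nonneg_left u1 hC0.le) hP
      have w3 : C * (2 * C * P) * P = 2 * C ^ 2 * (P * P) := by ring
      have w4 : P * P < C * C := by nlinarith
      have w5 : 2 * C ^ 2 * (P * P) < 2 * C ^ 2 * (C * C) :=
        mul_lt_mul_of_pos_left w4 (by positivity)
      have w6 : 2 * C ^ 2 * (C * C) = 2 * C ^ 4 := by ring
      linarith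
    obtain ⟨m1, -⟩ := L2 hPC
    have hP0 : 0 < P := by linarith
    have hb2 : b ≤ 2 * C ^ 2 * a := by
      have : P * b ≤ P * (2 * C ^ 2 * a) := by
        calc P * b ≤ C * (c + d) := m1
          _ ≤ C * (C * a * P + C * a * P) := mul_le_mul_of_nonneg_left (by linarith) hC0.le
          _ = P * (2 * C ^ 2 * a) := by ring
      exact le_of_mul_le_mul_left this hP0
    have v3 : κ * b ≤ 4 * C ^ 3 * η := by
      calc κ * b ≤ κ * (2 * C ^ 2 * a) := mul_le_mul_of_nonneg_left hb2 hκ.le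
        _ = 2 * C ^ 2 * (κ * a) := by ring
        _ ≤ 2 * C ^ 2 * (2 * C * η) := mul_le_mul_of_nonneg_left v1 (by positivity)
        _ = 4 * C ^ 3 * η := by ring
    have hCb : C * b ≤ 1 := by
      have : κ * (C * b) ≤ κ * 1 := by
        calc κ * (C * b) = C * (κ * b) := by ring
          _ ≤ C * (4 * C ^ 3 * η) := mul_le_mul_of_nonneg_left v3 hC0.le
          _ = 4 * C ^ 4 * η := by ring
          _ ≤ κ * 1 := by linarith
      exact le_of_mul_le_mul_left this hκ
    have s5 := S3' hCb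
    have : δ * κ ^ 2 ≤ 8 * C ^ 5 * η ^ 2 := by
      calc δ * κ ^ 2 ≤ C * b * c * κ ^ 2 := mul_le_mul_of_nonneg_right s5 (by positivity)
        _ = C * ((κ * b) * (κ * c)) := by ring
        _ ≤ C * ((4 * C ^ 3 * η) * (2 * C * η)) :=
            mul_le_mul_of_nonneg_left (mul_le_mul v3 v2 (by positivity) (by positivity)) hC0.le
        _ = 8 * C ^ 5 * η ^ 2 := by ring
    linarith
  · push Not at hbP
    have hb0 : 0 < b := lt_of_le_of_lt hP hbP
    have u1 : X * a ≤ 2 * C * b := by nlinarith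
    have hCa : 1 < C * a := by
      by_contra hle
      push Not at hle
      obtain ⟨s1, -, -⟩ := S1 hle
      have w1 : X * b ≤ b * (2 * C ^ 2 * P) := by
        calc X * b ≤ X * (C * a * P) := mul_le_mul_of_nonneg_left s1 hX0.le
          _ = C * (X * a) * P := by ring
          _ ≤ C * (2 * C * b) * P :=
              mul_le_mul_of_nonneg_right (mul_le_mul_of_nonneg_left u1 hC0.le) hP
          _ = b * (2 * C ^ 2 * P) := by ring
      have w2 : X ≤ 2 * C ^ 2 * P := by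
        have : b * X ≤ b * (2 * C ^ 2 * P) := by linarith
        exact le_of_mul_le_mul_left this hb0
      have w3 : 2 * C ^ 2 * P < 2 * C ^ 2 * (η * H) := mul_lt_mul_of_pos_left hPη (by positivity)
      have w4 : 2 * C ^ 2 * (η * H) ≤ κ * H := by
        calc 2 * C ^ 2 * (η * H) = 2 * C ^ 2 * η * H := by ring
          _ ≤ κ * H := mul_le_mul_of_nonneg_right g1 hH.le
      linarith
    have := hcon hCa
    have w1 : X ≤ 2 * C ^ 2 * b := by
      calc X = X * 1 := by ring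
        _ ≤ X * (C * a) := mul_le_mul_of_nonneg_left hCa.le hX0.le
        _ = C * (X * a) := by ring
        _ ≤ C * (2 * C * b) := mul_le_mul_of_nonneg_left u1 hC0.le
        _ = 2 * C ^ 2 * b := by ring
    linarith

theorem beta_i1 {X a b c d e P A Bb b2 b3 b4 B1 B4 E3 : ℝ}
    (hb2 : 0 < b2) (hb3 : 0 < b3) (hb4 : 0 < b4) (hB1 : 0 < B1) (hB4 : 0 < B4)
    (ha : 0 ≤ a) (hb : 0 ≤ b) (hc : 0 ≤ c) (he : 0 ≤ e) (hX0 : 0 < X)
    (hA0 : 0 < A) (hBb : 0 < Bb) (hcA : c ≤ A) (hbB : b ≤ Bb) (heB : e ≤ Bb)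
    (hE3e : E3 = b2 * (b2 * A + b4 * Bb) + (b3 * Bb + b4 * A) * ((B1 + B4) * Bb))
    (q0 : X * (B1 * a + B4 * c) = b2 * P + b3 * b + b4 * c)
    (q2 : P * (B1 * b + B4 * e) = b2 * c + b3 * d + b4 * e) :
    X * (B1 * B4 * (b * c)) ≤ b2 * b3 * d + E3 := by
  have j1 : B1 * B4 * (b * c) ≤ (B1 * a + B4 * c) * (B1 * b + B4 * e) := by
    have h : 0 ≤ B1 * a * (B1 * b + B4 * e) + B4 * c * (B4 * e) := by positivity
    have h2 : (B1 * a + B4 * c) * (B1 * b + B4 * e) = B1 * B4 * (b * c) +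
        (B1 * a * (B1 * b + B4 * e) + B4 * c * (B4 * e)) := by ring
    linarith
  have j2 : X * ((B1 * a + B4 * c) * (B1 * b + B4 * e)) =
      b2 * (b2 * c + b3 * d + b4 * e) + (b3 * b + b4 * c) * (B1 * b + B4 * e) := by
    calc X * ((B1 * a + B4 * c) * (B1 * b + B4 * e))
        = (X * (B1 * a + B4 * c)) * (B1 * b + B4 * e) := by ring
      _ = (b2 * P + b3 * b + b4 * c) * (B1 * b + B4 * e) := by rw [q0]
      _ = b2 * (P * (B1 * b + B4 * e)) + (b3 * b + b4 * c) * (B1 * b + B4 * e) := by ring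
      _ = _ := by rw [q2]
  have j3 : b2 * (b2 * c + b3 * d + b4 * e) ≤ b2 * b3 * d + b2 * (b2 * A + b4 * Bb) := by
    have y1 := mul_le_mul_of_nonneg_left hcA hb2.le
    have y2 := mul_le_mul_of_nonneg_left heB hb4.le
    have y3 := mul_le_mul_of_nonneg_left (add_le_add y1 y2) hb2.le
    have y4 : b2 * (b2 * c + b3 * d + b4 * e) = b2 * b3 * d + b2 * (b2 * c + b4 * e) := by ring
    linarith
  have j4 : (b3 * b + b4 * c) * (B1 * b + B4 * e) ≤
      (b3 * Bb + b4 * A) * ((B1 + B4) * Bb) := by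
    have y1 := mul_le_mul_of_nonneg_left hbB hb3.le
    have y2 := mul_le_mul_of_nonneg_left hcA hb4.le
    have y3 := mul_le_mul_of_nonneg_left hbB hB1.le
    have y4 := mul_le_mul_of_nonneg_left heB hB4.le
    apply mul_le_mul (by linarith) (by linarith) (by positivity) (by positivity)
  have j5 := mul_le_mul_of_nonneg_left j1 hX0.le
  rw [hE3e]
  linarith

theorem beta_i2 {b c d e f g A G b2 b3 b4 B1 B4 : ℝ}
    (hb2 : 0 < b2) (hb3 : 0 < b3) (hb4 : 0 < b4) (hB1 : 0 < B1) (hB4 : 0 < B4)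
    (hb : 0 ≤ b) (hc : 0 ≤ c) (hd : 0 ≤ d) (he : 0 ≤ e) (hf : 0 ≤ f) (hg : 0 ≤ g)
    (hA0 : 0 < A) (hcA : c ≤ A) (hgG : g ≤ G)
    (q3 : b * (B1 * c + B4 * f) = b2 * d + b3 * e + b4 * f)
    (q4 : c * (B1 * d + B4 * g) = b2 * e + b3 * f + b4 * g) :
    f * (b2 * b3 * d + b3 * b4 * f) ≤
      b * c * (B1 * B4 * (d * f) + (B1 ^ 2 * A * d + B4 ^ 2 * G * f + B1 * B4 * A * G)) := by
  have j1 : (b * (B1 * c + B4 * f)) * (c * (B1 * d + B4 * g)) =
      (b2 * d + b3 * e + b4 * f) * (b2 * e + b3 * f + b4 * g) := by rw [q3, q4]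
  have j2 : f * (b2 * b3 * d + b3 * b4 * f) ≤
      (b2 * d + b3 * e + b4 * f) * (b2 * e + b3 * f + b4 * g) := by
    have h : 0 ≤ (b2 * d + b4 * f) * (b2 * e + b4 * g) +
        b3 * e * (b2 * e + b3 * f + b4 * g) := by positivity
    have h2 : (b2 * d + b3 * e + b4 * f) * (b2 * e + b3 * f + b4 * g) =
        f * (b2 * b3 * d + b3 * b4 * f) + ((b2 * d + b4 * f) * (b2 * e + b4 * g) +
        b3 * e * (b2 * e + b3 * f + b4 * g)) := by ring
    linarith
  have j3 : (B1 * c + B4 * f) * (B1 * d + B4 * g) ≤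
      B1 * B4 * (d * f) + (B1 ^ 2 * A * d + B4 ^ 2 * G * f + B1 * B4 * A * G) := by
    have y1 : B1 ^ 2 * (c * d) ≤ B1 ^ 2 * (A * d) :=
      mul_le_mul_of_nonneg_left (mul_le_mul_of_nonneg_right hcA hd) (by positivity)
    have y2 : B4 ^ 2 * (f * g) ≤ B4 ^ 2 * (f * G) :=
      mul_le_mul_of_nonneg_left (mul_le_mul_of_nonneg_left hgG hf) (by positivity)
    have y3 : B1 * B4 * (c * g) ≤ B1 * B4 * (A * G) :=
      mul_le_mul_of_nonneg_left (mul_le_mul hcA hgG hg hA0.le) (by positivity)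
    have y4 : (B1 * c + B4 * f) * (B1 * d + B4 * g) = B1 * B4 * (d * f) + B1 ^ 2 * (c * d) +
        B4 ^ 2 * (f * g) + B1 * B4 * (c * g) := by ring
    linarith
  have hY0 : 0 ≤ b * c := mul_nonneg hb hc
  have j4 := mul_le_mul_of_nonneg_left j3 hY0
  have j5 : (b * (B1 * c + B4 * f)) * (c * (B1 * d + B4 * g)) =
      b * c * ((B1 * c + B4 * f) * (B1 * d + B4 * g)) := by ring
  linarith

theorem beta_i3 {X H b c d f A G Bb η1 η2 B1 B4 E5 : ℝ}
    (hB1 : 0 < B1) (hB4 : 0 < B4) (_hb : 0 ≤ b) (hc : 0 ≤ c) (hd : 0 ≤ d) (hf : 0 ≤ f)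
    (hX0 : 0 < X) (hH1 : 1 ≤ H) (hXH : X ≤ H)
    (hA0 : 0 < A) (hG : 0 < G) (hBb : 0 < Bb) (hη1 : 0 < η1) (hη2 : 0 < η2)
    (hcA : c ≤ A) (hbB : b ≤ Bb) (hd1 : η1 * H ≤ d) (hf1 : η2 * H ≤ f)
    (hE5e : E5 = A * Bb * (B1 ^ 2 * A / η2 + B4 ^ 2 * G / η1 +
      B1 * B4 * A * G / (η1 * η2))) :
    X * (b * c * (B1 ^ 2 * A * d + B4 ^ 2 * G * f + B1 * B4 * A * G)) ≤ E5 * (d * f) := by
  have hH0 : 0 < H := by linarith
  have hHf : H ≤ f / η2 := by rw [le_div_iff₀ hη2]; linarith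
  have hHd : H ≤ d / η1 := by rw [le_div_iff₀ hη1]; linarith
  have hYQ : b * c ≤ A * Bb := by
    calc b * c ≤ Bb * A := mul_le_mul hbB hcA hc hBb.le
      _ = A * Bb := by ring
  have y1 : X * (B1 ^ 2 * A * d) ≤ B1 ^ 2 * A / η2 * (d * f) := by
    have : X ≤ f / η2 := hXH.trans hHf
    calc X * (B1 ^ 2 * A * d) ≤ f / η2 * (B1 ^ 2 * A * d) :=
          mul_le_mul_of_nonneg_right this (by positivity)
      _ = B1 ^ 2 * A / η2 * (d * f) := by ring
  have y2 : X * (B4 ^ 2 * G * f) ≤ B4 ^ 2 * G / η1 * (d * f) := by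
    have : X ≤ d / η1 := hXH.trans hHd
    calc X * (B4 ^ 2 * G * f) ≤ d / η1 * (B4 ^ 2 * G * f) :=
          mul_le_mul_of_nonneg_right this (by positivity)
      _ = B4 ^ 2 * G / η1 * (d * f) := by ring
  have y3 : X * (B1 * B4 * A * G) ≤ B1 * B4 * A * G / (η1 * η2) * (d * f) := by
    have h0 : H ≤ H * H := by nlinarith
    have h1 : X ≤ d / η1 * (f / η2) := by
      calc X ≤ H := hXH
        _ ≤ H * H := h0
        _ ≤ d / η1 * (f / η2) := mul_le_mul hHd hHf hH0.le (by positivity)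
    calc X * (B1 * B4 * A * G) ≤ d / η1 * (f / η2) * (B1 * B4 * A * G) :=
          mul_le_mul_of_nonneg_right h1 (by positivity)
      _ = B1 * B4 * A * G / (η1 * η2) * (d * f) := by
          field_simp
  have y4 : X * (B1 ^ 2 * A * d + B4 ^ 2 * G * f + B1 * B4 * A * G) ≤
      (B1 ^ 2 * A / η2 + B4 ^ 2 * G / η1 + B1 * B4 * A * G / (η1 * η2)) * (d * f) := by
    have z1 : X * (B1 ^ 2 * A * d + B4 ^ 2 * G * f + B1 * B4 * A * G) =
        X * (B1 ^ 2 * A * d) + X * (B4 ^ 2 * G * f) + X * (B1 * B4 * A * G) := by ring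
    rw [z1, add_mul, add_mul]
    linarith
  calc X * (b * c * (B1 ^ 2 * A * d + B4 ^ 2 * G * f + B1 * B4 * A * G))
      = b * c * (X * (B1 ^ 2 * A * d + B4 ^ 2 * G * f + B1 * B4 * A * G)) := by ring
    _ ≤ A * Bb * ((B1 ^ 2 * A / η2 + B4 ^ 2 * G / η1 + B1 * B4 * A * G / (η1 * η2)) *
          (d * f)) := mul_le_mul hYQ y4 (by positivity) (by positivity)
    _ = E5 * (d * f) := by rw [hE5e]; ring

theorem beta_i4 {X H b c d f A G κ η2 b2 b3 b4 B1 B4 E3 E5 : ℝ}
    (hb2 : 0 < b2) (hb3 : 0 < b3) (hb4 : 0 < b4)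
    (hd0 : 0 < d) (hf0 : 0 < f) (hX0 : 0 < X) (hdH : d ≤ H) (hX : κ * H ≤ X)
    (hη2 : 0 < η2) (hf1 : η2 * H ≤ f)
    (k8 : 2 * (E3 + E5) ≤ H * (κ * (b3 * b4 * η2)))
    (i1 : X * (B1 * B4 * (b * c)) ≤ b2 * b3 * d + E3)
    (i2 : f * (b2 * b3 * d + b3 * b4 * f) ≤
      b * c * (B1 * B4 * (d * f) + (B1 ^ 2 * A * d + B4 ^ 2 * G * f + B1 * B4 * A * G)))
    (i3 : X * (b * c * (B1 ^ 2 * A * d + B4 ^ 2 * G * f + B1 * B4 * A * G)) ≤ E5 * (d * f)) :
    (1 + b4 * η2 / (2 * b2)) * X ≤ d := by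
  have hdf : 0 < d * f := mul_pos hd0 hf0
  have i4 : X * (f * (b2 * b3 * d + b3 * b4 * f)) ≤ (b2 * b3 * d + E3 + E5) * (d * f) := by
    calc X * (f * (b2 * b3 * d + b3 * b4 * f)) ≤ X * (b * c * (B1 * B4 * (d * f) +
          (B1 ^ 2 * A * d + B4 ^ 2 * G * f + B1 * B4 * A * G))) :=
          mul_le_mul_of_nonneg_left i2 hX0.le
      _ = X * (B1 * B4 * (b * c)) * (d * f) +
          X * (b * c * (B1 ^ 2 * A * d + B4 ^ 2 * G * f + B1 * B4 * A * G)) := by ring
      _ ≤ (b2 * b3 * d + E3) * (d * f) + E5 * (d * f) :=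
          add_le_add (mul_le_mul_of_nonneg_right i1 hdf.le) i3
      _ = _ := by ring
  have i5 : (d * f) * (X * (b2 * b3 + b3 * b4 * η2)) ≤ (d * f) * (b2 * b3 * d + E3 + E5) := by
    have h1 : η2 * d ≤ f := (mul_le_mul_of_nonneg_left hdH hη2.le).trans hf1
    have h2 : X * (f * (b3 * b4 * (η2 * d))) ≤ X * (f * (b3 * b4 * f)) :=
      mul_le_mul_of_nonneg_left (mul_le_mul_of_nonneg_left
        (mul_le_mul_of_nonneg_left h1 (by positivity)) hf0.le) hX0.le
    have h3 : (d * f) * (X * (b2 * b3 + b3 * b4 * η2)) =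
        X * (f * (b2 * b3 * d)) + X * (f * (b3 * b4 * (η2 * d))) := by ring
    have h4 : X * (f * (b2 * b3 * d + b3 * b4 * f)) =
        X * (f * (b2 * b3 * d)) + X * (f * (b3 * b4 * f)) := by ring
    have h5 : (d * f) * (b2 * b3 * d + E3 + E5) = (b2 * b3 * d + E3 + E5) * (d * f) := by ring
    rw [h3, h5]
    rw [h4] at i4
    linarith
  have i6 := le_of_mul_le_mul_left i5 hdf
  have i7 : 2 * (E3 + E5) ≤ X * (b3 * b4 * η2) := by
    calc 2 * (E3 + E5) ≤ H * (κ * (b3 * b4 * η2)) := k8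
      _ = κ * H * (b3 * b4 * η2) := by ring
      _ ≤ X * (b3 * b4 * η2) := mul_le_mul_of_nonneg_right hX (by positivity)
  have i8 : b2 * b3 * ((1 + b4 * η2 / (2 * b2)) * X) ≤ b2 * b3 * d := by
    have : b2 * b3 * ((1 + b4 * η2 / (2 * b2)) * X) =
        X * (b2 * b3 + b3 * b4 * η2) - X * (b3 * b4 * η2) / 2 := by
      field_simp
      ring
    rw [this]
    linarith
  exact le_of_mul_le_mul_left i8 (by positivity)

/-- The gain over one period. -/
theorem beta {C δ κ η b2 b3 b4 B1 B4 : ℝ} (hC : 1 ≤ C) (hδ : 0 < δ) (hδ1 : δ ≤ 1)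
    (hκ : 0 < κ) (hκ1 : κ ≤ 1) (hη : 0 < η)
    (hb2 : 0 < b2) (hb3 : 0 < b3) (hb4 : 0 < b4) (hB1 : 0 < B1) (hB4 : 0 < B4) :
    ∃ τ K : ℝ, 0 < τ ∧ ∀ H X a P b c d e f g h i : ℝ, K ≤ H →
      0 ≤ a → 0 ≤ b → 0 ≤ c → 0 ≤ d → 0 ≤ e → 0 ≤ f → 0 ≤ g →
      X ≤ H → P ≤ H → b ≤ H → d ≤ H → h ≤ H → i ≤ H →
      κ * H ≤ X → η * H ≤ P →
      (C ≤ X → X * a ≤ C * (P + b) ∧ X * c ≤ C * (P + b)) →
      (C ≤ P → P * b ≤ C * (c + d) ∧ P * e ≤ C * (c + d)) →
      (C ≤ f → f * g ≤ C * (h + i)) →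
      (C * b ≤ 1 → δ ≤ C * b * c) →
      d ≤ C * b * (c + f) →
      X * (B1 * a + B4 * c) = b2 * P + b3 * b + b4 * c →
      P * (B1 * b + B4 * e) = b2 * c + b3 * d + b4 * e →
      b * (B1 * c + B4 * f) = b2 * d + b3 * e + b4 * f →
      c * (B1 * d + B4 * g) = b2 * e + b3 * f + b4 * g →
      (1 + τ) * X ≤ d ∧ 2 * C ^ 2 * g < κ * H := by
  have hC0 : 0 < C := by linarith
  -- constants
  obtain ⟨A, hA⟩ : ∃ A : ℝ, A = 2 * C / κ := ⟨_, rfl⟩
  have hA0 : 0 < A := by rw [hA]; positivity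
  obtain ⟨b0, hb0e⟩ : ∃ b0 : ℝ, b0 = δ / (C * A) := ⟨_, rfl⟩
  have hb0 : 0 < b0 := by rw [hb0e]; positivity
  obtain ⟨η1, hη1e⟩ : ∃ η1 : ℝ, η1 = η * b0 / (2 * C) := ⟨_, rfl⟩
  have hη1 : 0 < η1 := by rw [hη1e]; positivity
  obtain ⟨Bb, hBbe⟩ : ∃ Bb : ℝ, Bb = 2 * C / η := ⟨_, rfl⟩
  have hBb : 0 < Bb := by rw [hBbe]; positivity
  obtain ⟨η2, hη2e⟩ : ∃ η2 : ℝ, η2 = η1 / (2 * C * Bb) := ⟨_, rfl⟩
  have hη2 : 0 < η2 := by rw [hη2e]; positivity
  obtain ⟨G, hGe⟩ : ∃ G : ℝ, G = 2 * C / η2 := ⟨_, rfl⟩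
  have hG : 0 < G := by rw [hGe]; positivity
  obtain ⟨E3, hE3e⟩ : ∃ E3 : ℝ, E3 = b2 * (b2 * A + b4 * Bb) +
    (b3 * Bb + b4 * A) * ((B1 + B4) * Bb) := ⟨_, rfl⟩
  have hE3 : 0 < E3 := by rw [hE3e]; positivity
  obtain ⟨E5, hE5e⟩ : ∃ E5 : ℝ, E5 = A * Bb * (B1 ^ 2 * A / η2 + B4 ^ 2 * G / η1 +
    B1 * B4 * A * G / (η1 * η2)) := ⟨_, rfl⟩
  have hE5 : 0 < E5 := by rw [hE5e]; positivity
  refine ⟨b4 * η2 / (2 * b2), 1 + C / κ + C / η + A + A / η1 + A / η2 + C / η2 +
    (2 * C ^ 2 * G + 1) / κ + 2 * (E3 + E5) / (κ * (b3 * b4 * η2)), by positivity, ?_⟩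
  intro H X a P b c d e f g h i hK ha hb hc hd he hf hg hXH hPH hbH hdH hhH hiH hX hP
    L0 L2 L7 S3 T3 q0 q2 q3 q4
  have t1 : 0 < C / κ := by positivity
  have t2 : 0 < C / η := by positivity
  have t3 : 0 < A / η1 := by positivity
  have t4 : 0 < A / η2 := by positivity
  have t5 : 0 < C / η2 := by positivity
  have t6 : 0 < (2 * C ^ 2 * G + 1) / κ := by positivity
  have t7 : 0 < 2 * (E3 + E5) / (κ * (b3 * b4 * η2)) := by positivity
  have hH1 : 1 ≤ H := by linarith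
  have hH0 : 0 < H := by linarith
  have k1 : C ≤ κ * H := by
    have : C / κ ≤ H := by linarith
    rw [div_le_iff₀ hκ] at this; linarith
  have k2 : C ≤ η * H := by
    have : C / η ≤ H := by linarith
    rw [div_le_iff₀ hη] at this; linarith
  have k3 : A ≤ H := by linarith
  have k4 : A ≤ η1 * H := by
    have : A / η1 ≤ H := by linarith
    rw [div_le_iff₀ hη1] at this; linarith
  have k5 : A ≤ η2 * H := by
    have : A / η2 ≤ H := by linarith
    rw [div_le_iff₀ hη2] at this; linarith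
  have k6 : C ≤ η2 * H := by
    have : C / η2 ≤ H := by linarith
    rw [div_le_iff₀ hη2] at this; linarith
  have k7 : 2 * C ^ 2 * G + 1 ≤ κ * H := by
    have : (2 * C ^ 2 * G + 1) / κ ≤ H := by linarith
    rw [div_le_iff₀ hκ] at this; linarith
  have k8 : 2 * (E3 + E5) ≤ H * (κ * (b3 * b4 * η2)) := by
    have : 2 * (E3 + E5) / (κ * (b3 * b4 * η2)) ≤ H := by linarith
    rwa [div_le_iff₀ (by positivity)] at this
  obtain ⟨l1, l2⟩ := L0 (k1.trans hX)
  obtain ⟨m1, m2⟩ := L2 (k2.trans hP)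
  have hX0 : 0 < X := by linarith
  have hP0 : 0 < P := by linarith
  have eA : κ * A = 2 * C := by rw [hA]; field_simp
  have eb0 : C * A * b0 = δ := by rw [hb0e]; field_simp
  have eη1 : 2 * C * η1 = η * b0 := by rw [hη1e]; field_simp
  have eBb : η * Bb = 2 * C := by rw [hBbe]; field_simp
  have eη2 : 2 * C * Bb * η2 = η1 := by rw [hη2e]; field_simp
  have eG : η2 * G = 2 * C := by rw [hGe]; field_simp
  -- `a, c ≤ A`
  have hcA : c ≤ A := by
    have : κ * H * c ≤ κ * H * A := by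
      calc κ * H * c ≤ X * c := mul_le_mul_of_nonneg_right hX hc
        _ ≤ C * (P + b) := l2
        _ ≤ C * (H + H) := mul_le_mul_of_nonneg_left (by linarith) hC0.le
        _ = κ * A * H := by rw [eA]; ring
        _ = κ * H * A := by ring
    exact le_of_mul_le_mul_left this (by positivity)
  -- `b ≥ b0`
  have hbb : b0 ≤ b := by
    by_cases hCb : C * b ≤ 1
    · have s := S3 hCb
      have : C * A * b0 ≤ C * A * b := by
        rw [eb0]
        calc δ ≤ C * b * c := s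
          _ ≤ C * b * A := mul_le_mul_of_nonneg_left hcA (by positivity)
          _ = C * A * b := by ring
      exact le_of_mul_le_mul_left this (by positivity)
    · push Not at hCb
      have hA1 : 1 ≤ A := by
        have : κ * 1 ≤ κ * A := by rw [eA]; linarith
        exact le_of_mul_le_mul_left this hκ
      have h1 : C * b0 ≤ 1 := by
        have : A * (C * b0) ≤ A * 1 := by
          calc A * (C * b0) = C * A * b0 := by ring
            _ = δ := eb0
            _ ≤ A * 1 := by linarith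
        exact le_of_mul_le_mul_left this hA0
      have : C * b0 ≤ C * b := by linarith
      exact le_of_mul_le_mul_left this hC0
  -- `d ≥ η1 H`
  have hd1 : η1 * H ≤ d := by
    have h1 : η * H * b0 ≤ C * (A + d) := by
      calc η * H * b0 ≤ P * b := mul_le_mul hP hbb hb0.le hP0.le
        _ ≤ C * (c + d) := m1
        _ ≤ C * (A + d) := mul_le_mul_of_nonneg_left (by linarith) hC0.le
    have h2 : C * (2 * η1 * H) ≤ C * (A + d) := by
      calc C * (2 * η1 * H) = 2 * C * η1 * H := by ring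
        _ = η * b0 * H := by rw [eη1]
        _ = η * H * b0 := by ring
        _ ≤ _ := h1
    have h3 := le_of_mul_le_mul_left h2 hC0
    linarith
  have hcd : c + d ≤ 2 * H := by linarith
  -- `b, e ≤ Bb`
  have hbB : b ≤ Bb := by
    have : η * H * b ≤ η * H * Bb := by
      calc η * H * b ≤ P * b := mul_le_mul_of_nonneg_right hP hb
        _ ≤ C * (c + d) := m1
        _ ≤ C * (2 * H) := mul_le_mul_of_nonneg_left hcd hC0.le
        _ = η * Bb * H := by rw [eBb]; ring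
        _ = η * H * Bb := by ring
    exact le_of_mul_le_mul_left this (by positivity)
  have heB : e ≤ Bb := by
    have : η * H * e ≤ η * H * Bb := by
      calc η * H * e ≤ P * e := mul_le_mul_of_nonneg_right hP he
        _ ≤ C * (c + d) := m2
        _ ≤ C * (2 * H) := mul_le_mul_of_nonneg_left hcd hC0.le
        _ = η * Bb * H := by rw [eBb]; ring
        _ = η * H * Bb := by ring
    exact le_of_mul_le_mul_left this (by positivity)
  -- `f ≥ η2 H`
  have hf1 : η2 * H ≤ f := by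
    have h1 : η1 * H ≤ C * Bb * (A + f) := by
      calc η1 * H ≤ d := hd1
        _ ≤ C * b * (c + f) := T3
        _ ≤ C * Bb * (A + f) :=
            mul_le_mul (mul_le_mul_of_nonneg_left hbB hC0.le) (by linarith) (by positivity)
              (by positivity)
    have h2 : C * Bb * (2 * η2 * H) ≤ C * Bb * (A + f) := by
      calc C * Bb * (2 * η2 * H) = 2 * C * Bb * η2 * H := by ring
        _ = η1 * H := by rw [eη2]
        _ ≤ _ := h1
    have h3 := le_of_mul_le_mul_left h2 (by positivity)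
    linarith
  -- `g ≤ G`
  have hgG : g ≤ G := by
    have h1 := L7 (k6.trans hf1)
    have : η2 * H * g ≤ η2 * H * G := by
      calc η2 * H * g ≤ f * g := mul_le_mul_of_nonneg_right hf1 hg
        _ ≤ C * (h + i) := h1
        _ ≤ C * (2 * H) := mul_le_mul_of_nonneg_left (by linarith) hC0.le
        _ = η2 * G * H := by rw [eG]; ring
        _ = η2 * H * G := by ring
    exact le_of_mul_le_mul_left this (by positivity)
  have hd0 : 0 < d := lt_of_lt_of_le (by positivity) hd1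
  have hf0 : 0 < f := lt_of_lt_of_le (by positivity) hf1
  refine ⟨?_, by nlinarith [mul_le_mul_of_nonneg_left hgG (by positivity : 0 ≤ 2 * C ^ 2)]⟩
  have i1 := beta_i1 hb2 hb3 hb4 hB1 hB4 ha hb hc he hX0 hA0 hBb hcA hbB heB hE3e q0 q2
  have i2 := beta_i2 hb2 hb3 hb4 hB1 hB4 hb hc hd he hf hg hA0 hcA hgG q3 q4
  have i3 := beta_i3 hB1 hB4 hb hc hd hf hX0 hH1 hXH hA0 hG hBb hη1 hη2 hcA hbB hd1 hf1 hE5e
  exact beta_i4 hb2 hb3 hb4 hd0 hf0 hX0 hdH hX hη2 hf1 k8 i1 i2 i3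

/-- Boundedness for the recurrence of type (28,18). -/
theorem bdd_2818_aux {x : ℕ → ℝ} {b2 b3 b4 B1 B4 : ℝ}
    (hb2 : 0 < b2) (hb3 : 0 < b3) (hb4 : 0 < b4) (hB1 : 0 < B1) (hB4 : 0 < B4)
    (hx : ∀ n, 0 ≤ x n)
    (heq : ∀ n, x (n + 4) * (B1 * x (n + 3) + B4 * x n) =
      b2 * x (n + 2) + b3 * x (n + 1) + b4 * x n)
    (hD : ∀ q, 0 < pr x q) : ∃ M : ℝ, ∀ n, x n ≤ M := by
  obtain ⟨C, hC, c1, c2, c3, c4, c5, c6, c7, c8⟩ : ∃ C : ℝ, 1 ≤ C ∧ 2 * B4 ≤ C * b4 ∧
      B1 + B4 ≤ C * b2 ∧ B1 ≤ C * b3 ∧ 2 * B1 ≤ C * b4 ∧ 2 * b4 ≤ C * B4 ∧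
      b2 + b3 ≤ C * B1 ∧ 2 * (b2 + b3) ≤ C * B4 ∧ B1 ≤ C * b2 := by
    have a1 : 0 < 2 * B4 / b4 := by positivity
    have a2 : 0 < (B1 + B4) / b2 := by positivity
    have a3 : 0 < B1 / b3 := by positivity
    have a4 : 0 < 2 * B1 / b4 := by positivity
    have a5 : 0 < 2 * b4 / B4 := by positivity
    have a6 : 0 < (b2 + b3) / B1 := by positivity
    have a7 : 0 < 2 * (b2 + b3) / B4 := by positivity
    have a8 : 0 < B1 / b2 := by positivity
    refine ⟨1 + 2 * B4 / b4 + (B1 + B4) / b2 + B1 / b3 + 2 * B1 / b4 + 2 * b4 / B4 +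
      (b2 + b3) / B1 + 2 * (b2 + b3) / B4 + B1 / b2, by linarith,
      ?_, ?_, ?_, ?_, ?_, ?_, ?_, ?_⟩
    · rw [← div_le_iff₀ hb4]; linarith
    · rw [← div_le_iff₀ hb2]; linarith
    · rw [← div_le_iff₀ hb3]; linarith
    · rw [← div_le_iff₀ hb4]; linarith
    · rw [← div_le_iff₀ hB4]; linarith
    · rw [← div_le_iff₀ hB1]; linarith
    · rw [← div_le_iff₀ hB4]; linarith
    · rw [← div_le_iff₀ hb2]; linarith
  have hC0 : 0 < C := by linarith
  have S : ∀ n, C * x (n + 4) ≤ 1 → x (n + 2) ≤ C * x (n + 4) * x (n + 3) ∧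
      x (n + 1) ≤ C * x (n + 4) * x (n + 3) ∧ x n ≤ C * x (n + 4) * x (n + 3) := by
    intro n hs
    have e := heq n
    have x4 := hx (n + 4)
    have x3 := hx (n + 3)
    have x2 := hx (n + 2)
    have x1 := hx (n + 1)
    have x0 := hx n
    have k1 : 2 * (B4 * x (n + 4)) ≤ b4 := by
      have : 2 * B4 * x (n + 4) ≤ C * b4 * x (n + 4) := mul_le_mul_of_nonneg_right c1 x4
      have h2 : b4 * (C * x (n + 4)) ≤ b4 * 1 := mul_le_mul_of_nonneg_left hs hb4.le
      linarith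
    have k2 : 2 * (B4 * x (n + 4)) * x n ≤ b4 * x n := mul_le_mul_of_nonneg_right k1 x0
    have t1 : 0 ≤ x (n + 4) * x (n + 3) := mul_nonneg x4 x3
    have r1 := mul_le_mul_of_nonneg_right c8 t1
    have r2 := mul_le_mul_of_nonneg_right c3 t1
    have r3 := mul_le_mul_of_nonneg_right c4 t1
    have p2 := mul_nonneg hb2.le x2
    have p1 := mul_nonneg hb3.le x1
    have p0 := mul_nonneg hb4.le x0
    have w : x (n + 4) * (B1 * x (n + 3) + B4 * x n) =
        B1 * (x (n + 4) * x (n + 3)) + B4 * x (n + 4) * x n := by ring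
    rw [w] at e
    refine ⟨?_, ?_, ?_⟩
    · apply le_of_mul_le_mul_left _ hb2
      linarith
    · apply le_of_mul_le_mul_left _ hb3
      linarith
    · apply le_of_mul_le_mul_left _ hb4
      linarith
  have L : ∀ n, C ≤ x (n + 4) → x (n + 4) * x (n + 3) ≤ C * (x (n + 2) + x (n + 1)) ∧
      x (n + 4) * x n ≤ C * (x (n + 2) + x (n + 1)) := by
    intro n hl
    have e := heq n
    have x4 := hx (n + 4)
    have x3 := hx (n + 3)
    have x2 := hx (n + 2)
    have x1 := hx (n + 1)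
    have x0 := hx n
    have k1 : 2 * b4 ≤ B4 * x (n + 4) := by
      have : B4 * C ≤ B4 * x (n + 4) := mul_le_mul_of_nonneg_left hl hB4.le
      linarith
    have k2 : 2 * b4 * x n ≤ B4 * x (n + 4) * x n := mul_le_mul_of_nonneg_right k1 x0
    have t0 : 0 ≤ x (n + 4) * x n := mul_nonneg x4 x0
    have t3 : 0 ≤ x (n + 4) * x (n + 3) := mul_nonneg x4 x3
    have u0 := mul_nonneg hB4.le t0
    have u3 := mul_nonneg hB1.le t3
    have s : 0 ≤ x (n + 2) + x (n + 1) := by linarith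
    have r1 := mul_le_mul_of_nonneg_right c6 s
    have r2 := mul_le_mul_of_nonneg_right c7 s
    have p2 := mul_nonneg hb2.le x1
    have p1 := mul_nonneg hb3.le x2
    have p0 := mul_nonneg hb4.le x0
    have w : x (n + 4) * (B1 * x (n + 3) + B4 * x n) =
        B1 * (x (n + 4) * x (n + 3)) + B4 * x (n + 4) * x n := by ring
    have w2 : (b2 + b3) * (x (n + 2) + x (n + 1)) = b2 * x (n + 2) + b3 * x (n + 1) +
        (b2 * x (n + 1) + b3 * x (n + 2)) := by ring
    rw [w] at e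
    refine ⟨?_, ?_⟩
    · apply le_of_mul_le_mul_left _ hB1
      linarith
    · apply le_of_mul_le_mul_left _ hB4
      linarith
  have T : ∀ n, x (n + 2) ≤ C * x (n + 4) * (x (n + 3) + x n) := by
    intro n
    have e := heq n
    have x4 := hx (n + 4)
    have x3 := hx (n + 3)
    have x2 := hx (n + 2)
    have x1 := hx (n + 1)
    have x0 := hx n
    have t0 : 0 ≤ x (n + 4) * (x (n + 3) + x n) := mul_nonneg x4 (by linarith)
    have r1 := mul_le_mul_of_nonneg_right c2 t0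
    have p1 := mul_nonneg hb3.le x1
    have p0 := mul_nonneg hb4.le x0
    have u0 := mul_nonneg hB1.le (mul_nonneg x4 x0)
    have u3 := mul_nonneg hB4.le (mul_nonneg x4 x3)
    apply le_of_mul_le_mul_left _ hb2
    have w : (B1 + B4) * (x (n + 4) * (x (n + 3) + x n)) =
        x (n + 4) * (B1 * x (n + 3) + B4 * x n) + (B1 * (x (n + 4) * x n) +
        B4 * (x (n + 4) * x (n + 3))) := by ring
    linarith
  -- lower bound for pairs
  obtain ⟨δ, hδe⟩ : ∃ δ : ℝ, δ = min (1 / C) (min (pr x 0) (min (pr x 1) (pr x 2))) := ⟨_, rfl⟩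
  have hδ0 : 0 < δ := by
    rw [hδe]
    simp only [lt_min_iff]
    exact ⟨by positivity, hD 0, hD 1, hD 2⟩
  have hδC : δ ≤ 1 / C := by rw [hδe]; exact min_le_left _ _
  have hδ1 : δ ≤ 1 := hδC.trans (by rw [div_le_one hC0]; exact hC)
  have hpr : ∀ q, δ ≤ pr x q := by
    intro q
    induction q using Nat.strong_induction_on with
    | _ q ih =>
      by_cases hq : q < 3
      · have : q = 0 ∨ q = 1 ∨ q = 2 := by omega
        rcases this with rfl | rfl | rfl
        · rw [hδe]; exact (min_le_right _ _).trans (min_le_left _ _)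
        · rw [hδe]; exact (min_le_right _ _).trans ((min_le_right _ _).trans (min_le_left _ _))
        · rw [hδe]; exact (min_le_right _ _).trans ((min_le_right _ _).trans (min_le_right _ _))
      · obtain ⟨m, rfl⟩ : ∃ m, q = m + 3 := ⟨q - 3, by omega⟩
        by_cases hCp : C * pr x (m + 3) ≤ 1
        · have e1 : x (m + 3) ≤ pr x (m + 3) := le_max_left _ _
          have e2 : x (m + 4) ≤ pr x (m + 3) := le_max_right _ _
          have hp0 := hD (m + 3)
          have e3 : C * x (m + 4) ≤ 1 := (mul_le_mul_of_nonneg_left e2 hC0.le).trans hCp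
          obtain ⟨s1, s2, -⟩ := S m e3
          have ih1 := ih (m + 1) (by omega)
          have hle : pr x (m + 1) ≤ C * x (m + 4) * x (m + 3) := max_le s2 s1
          have h4 : C * x (m + 4) * x (m + 3) ≤ 1 * x (m + 3) :=
            mul_le_mul_of_nonneg_right e3 (hx _)
          linarith
        · push Not at hCp
          have : 1 / C ≤ pr x (m + 3) := by
            rw [div_le_iff₀ hC0]; linarith
          exact hδC.trans this
  have S' : ∀ n, C * x (n + 4) ≤ 1 → δ ≤ C * x (n + 4) * x (n + 3) := by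
    intro n hs
    obtain ⟨s1, s2, -⟩ := S n hs
    exact (hpr (n + 1)).trans (max_le s2 s1)
  -- constants
  have p1 : ∀ m : ℕ, 1 ≤ C ^ m := fun m => one_le_pow₀ hC
  have pm : ∀ m n : ℕ, m ≤ n → C ^ m ≤ C ^ n := fun m n hmn => pow_le_pow_right₀ hC hmn
  obtain ⟨κ, hκe⟩ : ∃ κ : ℝ, κ = 1 / (2 * C ^ 2) := ⟨_, rfl⟩
  have hκ0 : 0 < κ := by rw [hκe]; positivity
  have eκ : 2 * C ^ 2 * κ = 1 := by rw [hκe]; field_simp
  have hκ1 : κ ≤ 1 := by
    rw [hκe, div_le_one (by positivity)]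
    linarith [p1 2]
  obtain ⟨η, hηe⟩ : ∃ η : ℝ, η = δ / (100 * C ^ 12) := ⟨_, rfl⟩
  have hη0 : 0 < η := by rw [hηe]; positivity
  have eη : 100 * C ^ 12 * η = δ := by rw [hηe]; field_simp
  have g1 : 8 * C ^ 6 * η ≤ 1 := by
    have : 8 * C ^ 6 * η ≤ 100 * C ^ 12 * η :=
      mul_le_mul_of_nonneg_right (by linarith [pm 6 12 (by norm_num), p1 12]) hη0.le
    linarith
  have h1κ : 4 * C ^ 4 * η ≤ κ := by
    have : 2 * C ^ 2 * (4 * C ^ 4 * η) ≤ 2 * C ^ 2 * κ := by
      calc 2 * C ^ 2 * (4 * C ^ 4 * η) = 8 * C ^ 6 * η := by ring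
        _ ≤ 1 := g1
        _ = _ := eκ.symm
    exact le_of_mul_le_mul_left this (by positivity)
  have h2κ : 8 * C ^ 5 * η ^ 2 < δ * κ ^ 2 := by
    have a1 : 4 * C ^ 4 * (8 * C ^ 5 * η ^ 2) < 4 * C ^ 4 * (δ * κ ^ 2) := by
      have r : 4 * C ^ 4 * (δ * κ ^ 2) = δ * (2 * C ^ 2 * κ) ^ 2 := by ring
      rw [r, eκ, one_pow, mul_one]
      have a2 : 4 * C ^ 4 * (8 * C ^ 5 * η ^ 2) = 32 * C ^ 9 * η * η := by ring
      rw [a2]
      have a3 : 32 * C ^ 9 * η ≤ 32 * C ^ 12 * η :=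
        mul_le_mul_of_nonneg_right (by linarith [pm 9 12 (by norm_num)]) hη0.le
      have a4 : 32 * C ^ 9 * η ≤ δ := by
        have : 0 ≤ C ^ 12 * η := by positivity
        linarith
      have a5 : η < 1 := by
        have : η ≤ C ^ 12 * η := by
          have := mul_le_mul_of_nonneg_right (p1 12) hη0.le
          linarith
        linarith
      have a6 : 32 * C ^ 9 * η * η ≤ δ * η := mul_le_mul_of_nonneg_right a4 hη0.le
      have a7 : δ * η < δ * 1 := mul_lt_mul_of_pos_left a5 hδ0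
      linarith
    exact lt_of_mul_lt_mul_left a1 (by positivity)
  have h11 : 4 * C ^ 4 * η ≤ 1 := h1κ.trans hκ1
  have h21 : 8 * C ^ 5 * η ^ 2 < δ * 1 ^ 2 := by
    have : κ ^ 2 ≤ 1 ^ 2 := pow_le_pow_left₀ hκ0.le hκ1 2
    have := mul_le_mul_of_nonneg_left this hδ0.le
    linarith
  obtain ⟨τ, K1, hτ, hbeta⟩ := beta (C := C) (δ := δ) (κ := κ) (η := η) hC hδ0 hδ1 hκ0 hκ1 hη0
    hb2 hb3 hb4 hB1 hB4
  obtain ⟨K, hKe⟩ : ∃ K : ℝ, K = max K1 (max 1 (max (2 * C ^ 4 / (κ * δ)) (C / κ))) := ⟨_, rfl⟩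
  have hK1 : K1 ≤ K := by rw [hKe]; exact le_max_left _ _
  have hK2 : 1 ≤ K := by rw [hKe]; exact (le_max_left _ _).trans (le_max_right _ _)
  have hK3 : 2 * C ^ 4 / (κ * δ) ≤ K := by
    rw [hKe]; exact (le_max_left _ _).trans ((le_max_right _ _).trans (le_max_right _ _))
  have hK4 : C / κ ≤ K := by
    rw [hKe]; exact (le_max_right _ _).trans ((le_max_right _ _).trans (le_max_right _ _))
  -- one block
  have block : ∀ H, K ≤ H → ∀ m, (∀ j, j ≤ m + 12 → x j ≤ H) → κ * H ≤ x (m + 12) →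
      η * H ≤ x (m + 10) → (1 + τ) * x (m + 12) ≤ x (m + 7) ∧ η * H ≤ x (m + 5) := by
    intro H hKH m hH hX hP
    have hH0 : 0 < H := by linarith
    have h3 : 2 * C ^ 4 ≤ κ * δ * H := by
      have := hK3.trans hKH
      rw [div_le_iff₀ (by positivity)] at this
      linarith
    have h4 : C ≤ κ * H := by
      have := hK4.trans hKH
      rw [div_le_iff₀ hκ0] at this
      linarith
    obtain ⟨b1, b2'⟩ := hbeta H (x (m + 12)) (x (m + 11)) (x (m + 10)) (x (m + 9)) (x (m + 8))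
      (x (m + 7)) (x (m + 6)) (x (m + 5)) (x (m + 4)) (x (m + 3)) (x (m + 2))
      (hK1.trans hKH) (hx _) (hx _) (hx _) (hx _) (hx _) (hx _) (hx _)
      (hH _ (by omega)) (hH _ (by omega)) (hH _ (by omega)) (hH _ (by omega))
      (hH _ (by omega)) (hH _ (by omega)) hX hP
      (fun h => L (m + 8) h) (fun h => L (m + 6) h) (fun h => (L (m + 1) h).1)
      (fun h => S' (m + 5) h) (T (m + 5)) (heq (m + 8)) (heq (m + 6)) (heq (m + 5))
      (heq (m + 4))
    refine ⟨b1, ?_⟩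
    have hX' : κ * H ≤ x (m + 7) := by
      have : x (m + 12) ≤ (1 + τ) * x (m + 12) := by
        have := mul_nonneg hτ.le (hx (m + 12))
        linarith
      linarith
    rcases tri (C := C) (δ := δ) (κ := κ) (η := η) (H := H) (X := x (m + 7))
      (a := x (m + 6)) (P := x (m + 5)) (b := x (m + 4)) (c := x (m + 3)) (d := x (m + 2))
      (e := x (m + 1)) hC hδ0 hκ0 hη0 (hx _) (hx _) (hx _) (hx _) (hx _) hX' hH0
      (fun h => L (m + 3) h) (fun h => S (m + 2) h) (fun h => S' (m + 2) h)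
      (fun h => L (m + 1) h) (fun h => S' m h) h1κ h2κ h3 h4 with h | ⟨-, h⟩
    · exact h
    · linarith
  -- many blocks
  have blocks : ∀ H, K ≤ H → ∀ k n, 5 * k + 7 ≤ n → (∀ j, j ≤ n → x j ≤ H) → κ * H ≤ x n →
      η * H ≤ x (n - 2) → (1 + τ) ^ k * (κ * H) ≤ x (n - 5 * k) ∧
        η * H ≤ x (n - 5 * k - 2) := by
    intro H hKH k
    induction k with
    | zero =>
      intro n _ _ h1 h2
      simpa using ⟨h1, h2⟩
    | succ k ih =>
      intro n hn hH h1 h2
      obtain ⟨i1, i2⟩ := ih n (by omega) hH h1 h2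
      obtain ⟨m, hm⟩ : ∃ m, n - 5 * k = m + 12 := ⟨n - 5 * k - 12, by omega⟩
      have hm2 : n - 5 * k - 2 = m + 10 := by omega
      have hm3 : n - 5 * (k + 1) = m + 7 := by omega
      have hm4 : n - 5 * (k + 1) - 2 = m + 5 := by omega
      rw [hm] at i1
      rw [hm2] at i2
      rw [hm4, hm3]
      have hκH : 0 < κ * H := mul_pos hκ0 (by linarith)
      have h1τ : 1 ≤ (1 + τ) ^ k := one_le_pow₀ (by linarith)
      have i3 : κ * H ≤ x (m + 12) := by
        have : 1 * (κ * H) ≤ (1 + τ) ^ k * (κ * H) :=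
          mul_le_mul_of_nonneg_right h1τ hκH.le
        linarith
      obtain ⟨j1, j2⟩ := block H hKH m (fun j hj => hH j (by omega)) i3 i2
      refine ⟨?_, j2⟩
      calc (1 + τ) ^ (k + 1) * (κ * H) = (1 + τ) * ((1 + τ) ^ k * (κ * H)) := by ring
        _ ≤ (1 + τ) * x (m + 12) := mul_le_mul_of_nonneg_left i1 (by linarith)
        _ ≤ _ := j1
  obtain ⟨k0, hk0⟩ := pow_unbounded_of_one_lt (1 / κ) (show 1 < 1 + τ by linarith)
  have hk0' : 1 < (1 + τ) ^ k0 * κ := by
    rwa [div_lt_iff₀ hκ0] at hk0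
  have nostart : ∀ H, K ≤ H → ∀ n, 5 * k0 + 7 ≤ n → (∀ j, j ≤ n → x j ≤ H) → κ * H ≤ x n →
      η * H ≤ x (n - 2) → False := by
    intro H hKH n hn hH h1 h2
    obtain ⟨i1, -⟩ := blocks H hKH k0 n hn hH h1 h2
    have h3 := hH (n - 5 * k0) (by omega)
    have hH0 : 0 < H := by linarith
    have h4 : 1 * H < (1 + τ) ^ k0 * κ * H := mul_lt_mul_of_pos_right hk0' hH0
    linarith
  have key : ∀ N, 5 * k0 + 20 ≤ N → (∀ m, m < N → x m ≤ x N) → x N ≤ K := by
    intro N hN hrec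
    by_contra hcon
    push Not at hcon
    obtain ⟨m, rfl⟩ : ∃ m, N = m + 7 := ⟨N - 7, by omega⟩
    obtain ⟨H, hHe⟩ : ∃ H : ℝ, H = x (m + 7) := ⟨_, rfl⟩
    have hKH : K ≤ H := by rw [hHe]; exact hcon.le
    have hall : ∀ j, j ≤ m + 7 → x j ≤ H := by
      intro j hj
      rw [hHe]
      rcases Nat.lt_or_ge j (m + 7) with h | h
      · exact hrec j h
      · have : j = m + 7 := by omega
        rw [this]
    have hH1 : 1 ≤ H := by linarith
    have hH0 : 0 < H := by linarith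
    have h3 : 2 * C ^ 4 ≤ κ * δ * H := by
      have := hK3.trans hKH
      rw [div_le_iff₀ (by positivity)] at this
      linarith
    have h4 : C ≤ κ * H := by
      have := hK4.trans hKH
      rw [div_le_iff₀ hκ0] at this
      linarith
    have h31 : 2 * C ^ 4 ≤ 1 * δ * H := by
      have : κ * (δ * H) ≤ 1 * (δ * H) :=
        mul_le_mul_of_nonneg_right hκ1 (mul_pos hδ0 hH0).le
      linarith
    have h41 : C ≤ 1 * H := by
      have : κ * H ≤ 1 * H := mul_le_mul_of_nonneg_right hκ1 hH0.le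
      linarith
    have hstart : κ * H ≤ x (m + 7) := by
      rw [← hHe]
      have : κ * H ≤ 1 * H := mul_le_mul_of_nonneg_right hκ1 hH0.le
      linarith
    by_cases hP : η * H ≤ x (m + 5)
    · exact nostart H hKH (m + 7) (by omega) hall hstart (by
        have : m + 7 - 2 = m + 5 := by omega
        rw [this]; exact hP)
    · rcases tri (C := C) (δ := δ) (κ := 1) (η := η) (H := H) (X := x (m + 7))
        (a := x (m + 6)) (P := x (m + 5)) (b := x (m + 4)) (c := x (m + 3)) (d := x (m + 2))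
        (e := x (m + 1)) hC hδ0 one_pos hη0 (hx _) (hx _) (hx _) (hx _) (hx _)
        (by rw [← hHe]; linarith) hH0
        (fun h => L (m + 3) h) (fun h => S (m + 2) h) (fun h => S' (m + 2) h)
        (fun h => L (m + 1) h) (fun h => S' m h) h11 h21 h31 h41 with h | ⟨-, h⟩
      · exact hP h
      · push Not at hP
        have hb : κ * H ≤ x (m + 4) := by
          have : 2 * C ^ 2 * (κ * H) ≤ 2 * C ^ 2 * x (m + 4) := by
            calc 2 * C ^ 2 * (κ * H) = 2 * C ^ 2 * κ * H := by ring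
              _ = 1 * H := by rw [eκ]
              _ ≤ _ := h
          exact le_of_mul_le_mul_left this (by positivity)
        -- `x (m + 6) ≤ 2 C`
        have ha : x (m + 6) ≤ 2 * C := by
          obtain ⟨l1, -⟩ := L (m + 3) (by
            change C ≤ x (m + 7)
            rw [← hHe]; linarith)
          change x (m + 7) * x (m + 6) ≤ C * (x (m + 5) + x (m + 4)) at l1
          rw [← hHe] at l1
          have : H * x (m + 6) ≤ H * (2 * C) := by
            calc H * x (m + 6) ≤ C * (x (m + 5) + x (m + 4)) := l1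
              _ ≤ C * (H + H) := mul_le_mul_of_nonneg_left
                  (add_le_add (hall _ (by omega)) (hall _ (by omega))) hC0.le
              _ = H * (2 * C) := by ring
          exact le_of_mul_le_mul_left this hH0
        have hT := T (m + 2)
        change x (m + 4) ≤ C * x (m + 6) * (x (m + 5) + x (m + 2)) at hT
        have hd : η * H ≤ x (m + 2) := by
          have s0 : 0 ≤ x (m + 5) + x (m + 2) := by linarith [hx (m + 5), hx (m + 2)]
          have s1 : κ * H ≤ C * (2 * C) * (η * H + x (m + 2)) := by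
            calc κ * H ≤ x (m + 4) := hb
              _ ≤ C * x (m + 6) * (x (m + 5) + x (m + 2)) := hT
              _ ≤ C * (2 * C) * (η * H + x (m + 2)) :=
                  mul_le_mul (mul_le_mul_of_nonneg_left ha hC0.le) (by linarith) s0
                    (by positivity)
          have s2 : 2 * C ^ 2 * (κ * H) ≤ 2 * C ^ 2 * (C * (2 * C) * (η * H + x (m + 2))) :=
            mul_le_mul_of_nonneg_left s1 (by positivity)
          have s3 : 2 * C ^ 2 * (κ * H) = H := by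
            calc 2 * C ^ 2 * (κ * H) = 2 * C ^ 2 * κ * H := by ring
              _ = H := by rw [eκ, one_mul]
          have s4 : 2 * C ^ 2 * (C * (2 * C) * (η * H + x (m + 2))) =
              4 * C ^ 4 * η * H + 4 * C ^ 4 * x (m + 2) := by ring
          have s5 : 8 * C ^ 4 * η ≤ 1 := by
            have : 8 * C ^ 4 * η ≤ 8 * C ^ 6 * η :=
              mul_le_mul_of_nonneg_right (by linarith [pm 4 6 (by norm_num)]) hη0.le
            linarith
          have s6 : 8 * C ^ 4 * η * H ≤ 1 * H := mul_le_mul_of_nonneg_right s5 hH0.le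
          have s7 : 4 * C ^ 4 * (η * H) ≤ 4 * C ^ 4 * x (m + 2) := by
            have : 4 * C ^ 4 * (η * H) = 8 * C ^ 4 * η * H - 4 * C ^ 4 * η * H := by ring
            linarith
          exact le_of_mul_le_mul_left s7 (by positivity)
        exact nostart H hKH (m + 4) (by omega) (fun j hj => hall j (by omega)) hb (by
          have : m + 4 - 2 = m + 2 := by omega
          rw [this]; exact hd)
  refine ⟨max K (∑ m ∈ Finset.range (5 * k0 + 20), |x m|), fun n => ?_⟩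
  rcases bound_of_record key n with h | ⟨m, hm, h⟩
  · exact h.trans (le_max_left _ _)
  · refine h.trans (le_trans ?_ (le_max_right _ _))
    exact (le_abs_self _).trans
      (Finset.single_le_sum (f := fun m => |x m|) (fun i _ => abs_nonneg _)
        (Finset.mem_range.mpr hm))

theorem bdd_28_18 : BoundedOnly (fs 28) (fs 18) := by
  intro b B hb hB x hx
  have b0 : b 0 = 0 := hb.2 0 (by decide)
  have b1 : b 1 = 0 := hb.2 1 (by decide)
  have b2 : 0 < b 2 := hb.1 2 (by decide)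
  have b3 : 0 < b 3 := hb.1 3 (by decide)
  have b4 : 0 < b 4 := hb.1 4 (by decide)
  have B0 : B 0 = 0 := hB.2 0 (by decide)
  have B1 : 0 < B 1 := hB.1 1 (by decide)
  have B2 : B 2 = 0 := hB.2 2 (by decide)
  have B3 : B 3 = 0 := hB.2 3 (by decide)
  have B4 : 0 < B 4 := hB.1 4 (by decide)
  have hn := hx.nonneg hb.nonneg
  have hden : ∀ n, 0 < B 1 * x (n + 3) + B 4 * x n := by
    intro n
    have := hx.den_pos n
    simp only [lin, B0, B2, B3, zero_add, zero_mul, add_zero] at this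
    exact this
  have heq : ∀ n, x (n + 4) * (B 1 * x (n + 3) + B 4 * x n) =
      b 2 * x (n + 2) + b 3 * x (n + 1) + b 4 * x n := by
    intro n
    have h1 := hx.step n
    have h2 := hx.den_pos n
    rw [eq_div_iff h2.ne'] at h1
    simp only [lin, b0, b1, B0, B2, B3, zero_add, zero_mul, add_zero] at h1
    exact h1
  obtain ⟨M, hM⟩ := bdd_2818_aux (x := fun n => x (n + 4)) b2 b3 b4 B1 B4 (fun n => hn _)
    (fun n => by
      have e := heq (n + 4)
      have q1 : n + 4 + 4 = n + 8 := by ring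
      have q2 : n + 4 + 3 = n + 7 := by ring
      have q3 : n + 4 + 2 = n + 6 := by ring
      have q4 : n + 4 + 1 = n + 5 := by ring
      rw [q1, q2, q3, q4] at e
      exact e) (by
      intro q
      by_contra hcon
      have hle : pr (fun n => x (n + 4)) q ≤ 0 := not_lt.mp hcon
      have h1 : x (q + 4) ≤ 0 := (le_max_left _ _).trans hle
      have h2 : x (q + 5) ≤ 0 := (le_max_right _ _).trans hle
      have h1' : x (q + 4) = 0 := le_antisymm h1 (hn _)
      have h2' : x (q + 5) = 0 := le_antisymm h2 (hn _)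
      have e := heq (q + 1)
      have d1 := hden (q + 1)
      have q1 : q + 1 + 4 = q + 5 := by ring
      have q2 : q + 1 + 3 = q + 4 := by ring
      have q3 : q + 1 + 1 = q + 2 := by ring
      rw [q1, q2, q3, h1', h2'] at e
      rw [q2, h1'] at d1
      have y1 := mul_nonneg b2.le (hn (q + 1 + 2))
      have y2 := mul_nonneg b3.le (hn (q + 2))
      have y3 := mul_nonneg b4.le (hn (q + 1))
      have z3 : b 4 * x (q + 1) = 0 := by linarith
      have w3 : x (q + 1) = 0 := by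
        rcases mul_eq_zero.mp z3 with h | h
        · exact absurd h b4.ne'
        · exact h
      rw [w3] at d1
      simp at d1)
  exact bdd_of_shift 4 hM

end Pool.Agent.RatRec
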