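import Pool.Agent.Lib_helper42.Rat.Cases26

/-!
The cases (20,18) and (20,26) of problem MP_88c4fb_an.
-/

set_option autoImplicit false

namespace Pool.Agent.RatRec

/-- Two small terms with a gap produce a very small pair. -/
theorem claimA2_fin {C H s t u v w : ℝ} (hC : 1 ≤ C) (hH1 : 1 ≤ H)
    (_hs : 0 ≤ s) (ht : 0 ≤ t) (hu : 0 ≤ u) (hv : 0 ≤ v) (hw : 0 ≤ w)
    (h1 : H * s ≤ 2 * C ^ 4) (h2 : H * t ≤ C ^ 2) (h3 : u ≤ H) (h4 : v ≤ H)
    (h5 : w ≤ C * t * (u + v)) (h6 : u ≤ C * s * (t + w))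
    (h7 : H * v ≤ 6 * C ^ 8 ∨ v ≤ C * s * (t + w)) :
    (∀ w', w' ≤ C * t * (u + v) → w' * H ^ 2 ≤ 12 * C ^ 11) ∧ u * H ^ 2 ≤ 26 * C ^ 16 := by
  have hC0 : 0 < C := by linarith
  have pm : ∀ m n : ℕ, m ≤ n → C ^ m ≤ C ^ n := fun m n hmn => pow_le_pow_right₀ hC hmn
  have hH0 : 0 < H := by linarith
  have w1 : w ≤ 2 * C ^ 3 := by
    calc w ≤ C * t * (u + v) := h5
      _ ≤ C * t * (H + H) := mul_le_mul_of_nonneg_left (by linarith) (by positivity)
      _ = 2 * C * (H * t) := by ring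
      _ ≤ 2 * C * C ^ 2 := mul_le_mul_of_nonneg_left h2 (by positivity)
      _ = 2 * C ^ 3 := by ring
  have t1 : t ≤ C ^ 2 := by
    have : 1 * t ≤ H * t := mul_le_mul_of_nonneg_right hH1 ht
    linarith
  have z1 : H * (C * s * (t + w)) ≤ 6 * C ^ 8 := by
    calc H * (C * s * (t + w)) = C * (H * s) * (t + w) := by ring
      _ ≤ C * (2 * C ^ 4) * (C ^ 2 + 2 * C ^ 3) :=
          mul_le_mul (mul_le_mul_of_nonneg_left h1 hC0.le) (by linarith) (by positivity)
            (by positivity)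
      _ = 2 * C ^ 7 + 4 * C ^ 8 := by ring
      _ ≤ 6 * C ^ 8 := by linarith [pm 7 8 (by norm_num)]
  have u1 : H * u ≤ 6 * C ^ 8 := (mul_le_mul_of_nonneg_left h6 hH0.le).trans z1
  have v1 : H * v ≤ 6 * C ^ 8 := by
    rcases h7 with h | h
    · exact h
    · exact (mul_le_mul_of_nonneg_left h hH0.le).trans z1
  have w2 : ∀ w', w' ≤ C * t * (u + v) → w' * H ^ 2 ≤ 12 * C ^ 11 := by
    intro w' hw'
    calc w' * H ^ 2 ≤ C * t * (u + v) * H ^ 2 := mul_le_mul_of_nonneg_right hw' (by positivity)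
      _ = C * (H * t) * (H * u + H * v) := by ring
      _ ≤ C * C ^ 2 * (6 * C ^ 8 + 6 * C ^ 8) :=
          mul_le_mul (mul_le_mul_of_nonneg_left h2 hC0.le) (by linarith) (by positivity)
            (by positivity)
      _ = 12 * C ^ 11 := by ring
  refine ⟨w2, ?_⟩
  have w3 : H * w ≤ 12 * C ^ 11 := by
    have : H * w * 1 ≤ H * w * H := mul_le_mul_of_nonneg_left hH1 (by positivity)
    have h8 := w2 w h5
    calc H * w = H * w * 1 := by ring
      _ ≤ H * w * H := this
      _ = w * H ^ 2 := by ring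
      _ ≤ _ := h8
  calc u * H ^ 2 ≤ C * s * (t + w) * H ^ 2 := mul_le_mul_of_nonneg_right h6 (by positivity)
    _ = C * (H * s) * (H * t + H * w) := by ring
    _ ≤ C * (2 * C ^ 4) * (C ^ 2 + 12 * C ^ 11) :=
        mul_le_mul (mul_le_mul_of_nonneg_left h1 hC0.le) (by linarith) (by positivity)
          (by positivity)
    _ = 2 * C ^ 7 + 24 * C ^ 16 := by ring
    _ ≤ 26 * C ^ 16 := by linarith [pm 7 16 (by norm_num)]

/-- The estimate for large records. -/
theorem claimA2 {C H a P b c d e f g h : ℝ} (hC : 1 ≤ C)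
    (_ha : 0 ≤ a) (hP : 0 ≤ P) (hb : 0 ≤ b) (hc : 0 ≤ c) (hd : 0 ≤ d) (he : 0 ≤ e) (hf : 0 ≤ f)
    (hg : 0 ≤ g) (hh : 0 ≤ h)
    (hPH : P ≤ H) (hdH : d ≤ H) (hfH : f ≤ H) (hhH : h ≤ H)
    (L10 : C ≤ H → H * a ≤ C * P ∧ H * c ≤ C * P)
    (L8 : C ≤ P → P * b ≤ C * c ∧ P * e ≤ C * c)
    (S9 : C * a ≤ 1 → b ≤ C * a * (P + c) ∧ d ≤ C * a * (P + c))
    (S7 : C * b ≤ 1 → d ≤ C * b * (c + e) ∧ f ≤ C * b * (c + e))
    (S6 : C * c ≤ 1 → e ≤ C * c * (d + f) ∧ g ≤ C * c * (d + f))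
    (S5 : C * d ≤ 1 → f ≤ C * d * (e + g) ∧ h ≤ C * d * (e + g))
    (S4 : C * e ≤ 1 → g ≤ C * e * (f + h))
    (hH : 2 * C ^ 5 ≤ H) :
    g * H ^ 2 ≤ 26 * C ^ 16 ∧ f * H ^ 2 ≤ 26 * C ^ 16 := by
  have hC0 : 0 < C := by linarith
  have p1 : ∀ m : ℕ, 1 ≤ C ^ m := fun m => one_le_pow₀ hC
  have pm : ∀ m n : ℕ, m ≤ n → C ^ m ≤ C ^ n := fun m n hmn => pow_le_pow_right₀ hC hmn
  have hH1 : 1 ≤ H := by linarith [p1 5]
  have hH0 : 0 < H := by linarith
  have hCH : C ≤ H := by
    have := pm 1 5 (by norm_num)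
    rw [pow_one] at this
    linarith [p1 5]
  have e1 : 12 * C ^ 11 ≤ 26 * C ^ 16 := by linarith [pm 11 16 (by norm_num), p1 11, p1 16]
  obtain ⟨l1, l2⟩ := L10 hCH
  have small : ∀ {t A : ℝ}, H * t ≤ A → A * C ≤ H → C * t ≤ 1 := by
    intro t A h1 h2
    have h3 : H * (C * t) ≤ H * 1 := by
      calc H * (C * t) = C * (H * t) := by ring
        _ ≤ C * A := mul_le_mul_of_nonneg_left h1 hC0.le
        _ ≤ H * 1 := by linarith
    exact le_of_mul_le_mul_left h3 hH0
  have s2 : C ^ 2 * C ≤ H := by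
    have : C ^ 2 * C = C ^ 3 := by ring
    rw [this]; linarith [pm 3 5 (by norm_num), p1 3, p1 5]
  have s4 : 2 * C ^ 4 * C ≤ H := by
    have : 2 * C ^ 4 * C = 2 * C ^ 5 := by ring
    rw [this]; exact hH
  have hcC : c ≤ C := by
    have : H * c ≤ H * C := by
      calc H * c ≤ C * P := l2
        _ ≤ C * H := mul_le_mul_of_nonneg_left hPH hC0.le
        _ = H * C := by ring
    exact le_of_mul_le_mul_left this hH0
  by_cases hPC : C ≤ P
  · obtain ⟨m1, m2⟩ := L8 hPC
    have hP0 : 0 < P := by linarith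
    have hb2 : H * b ≤ C ^ 2 := by
      have : P * (H * b) ≤ P * C ^ 2 := by
        calc P * (H * b) = H * (P * b) := by ring
          _ ≤ H * (C * c) := mul_le_mul_of_nonneg_left m1 hH0.le
          _ = C * (H * c) := by ring
          _ ≤ C * (C * P) := mul_le_mul_of_nonneg_left l2 hC0.le
          _ = P * C ^ 2 := by ring
      exact le_of_mul_le_mul_left this hP0
    have he2 : H * e ≤ C ^ 2 := by
      have : P * (H * e) ≤ P * C ^ 2 := by
        calc P * (H * e) = H * (P * e) := by ring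
          _ ≤ H * (C * c) := mul_le_mul_of_nonneg_left m2 hH0.le
          _ = C * (H * c) := by ring
          _ ≤ C * (C * P) := mul_le_mul_of_nonneg_left l2 hC0.le
          _ = P * C ^ 2 := by ring
      exact le_of_mul_le_mul_left this hP0
    obtain ⟨q1, -⟩ := S7 (small hb2 s2)
    have heC : e ≤ C := by
      have := small he2 s2
      have h1 : 1 * e ≤ C * e := mul_le_mul_of_nonneg_right hC he
      linarith
    have hd2 : H * d ≤ 2 * C ^ 4 := by
      calc H * d ≤ H * (C * b * (c + e)) := mul_le_mul_of_nonneg_left q1 hH0.le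
        _ = C * (H * b) * (c + e) := by ring
        _ ≤ C * C ^ 2 * (C + C) :=
            mul_le_mul (mul_le_mul_of_nonneg_left hb2 hC0.le) (by linarith) (by positivity)
              (by positivity)
        _ = 2 * C ^ 4 := by ring
    obtain ⟨q3, q4⟩ := S5 (small hd2 s4)
    have q5 := S4 (small he2 s2)
    obtain ⟨r1, r2⟩ := claimA2_fin (s := d) (t := e) (u := f) (v := h) (w := g) hC hH1 hd he hf
      hh hg hd2 he2 hfH hhH q5 q3 (Or.inr q4)
    exact ⟨(r1 g q5).trans e1, r2⟩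
  · push Not at hPC
    have ha2 : H * a ≤ C ^ 2 := by
      calc H * a ≤ C * P := l1
        _ ≤ C * C := mul_le_mul_of_nonneg_left hPC.le hC0.le
        _ = C ^ 2 := by ring
    have hc2 : H * c ≤ C ^ 2 := by
      calc H * c ≤ C * P := l2
        _ ≤ C * C := mul_le_mul_of_nonneg_left hPC.le hC0.le
        _ = C ^ 2 := by ring
    obtain ⟨q1, q2⟩ := S9 (small ha2 s2)
    have z : H * (C * a * (P + c)) ≤ 2 * C ^ 4 := by
      calc H * (C * a * (P + c)) = C * (H * a) * (P + c) := by ring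
        _ ≤ C * C ^ 2 * (C + C) :=
            mul_le_mul (mul_le_mul_of_nonneg_left ha2 hC0.le) (by linarith) (by positivity)
              (by positivity)
        _ = 2 * C ^ 4 := by ring
    have hb2 : H * b ≤ 2 * C ^ 4 := (mul_le_mul_of_nonneg_left q1 hH0.le).trans z
    have hd2 : H * d ≤ 6 * C ^ 8 := by
      have := (mul_le_mul_of_nonneg_left q2 hH0.le).trans z
      linarith [pm 4 8 (by norm_num), p1 4]
    obtain ⟨-, q4⟩ := S7 (small hb2 s4)
    obtain ⟨q5, q6⟩ := S6 (small hc2 s2)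
    have q5' : e ≤ C * c * (f + d) := by rw [add_comm f d]; exact q5
    have q6' : g ≤ C * c * (f + d) := by rw [add_comm f d]; exact q6
    obtain ⟨r1, r2⟩ := claimA2_fin (s := b) (t := c) (u := f) (v := d) (w := e) hC hH1 hb hc hf
      hd he hb2 hc2 hfH hdH q5' q4 (Or.inl hd2)
    exact ⟨(r1 g q6').trans e1, r2⟩

/-- Boundedness from the smallness and largeness estimates, second kind. -/
theorem bdd_SL2 {x : ℕ → ℝ} {C : ℝ} (hx : ∀ n, 0 ≤ x n) (hC : 1 ≤ C)
    (S : ∀ n, C * x (n + 4) ≤ 1 → x (n + 2) ≤ C * x (n + 4) * (x (n + 3) + x (n + 1)) ∧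
      x n ≤ C * x (n + 4) * (x (n + 3) + x (n + 1)))
    (L : ∀ n, C ≤ x (n + 4) → x (n + 4) * x (n + 3) ≤ C * x (n + 2) ∧
      x (n + 4) * x n ≤ C * x (n + 2))
    (hD : ∀ q, 0 < pr x q) : ∃ M : ℝ, ∀ n, x n ≤ M := by
  have hC0 : 0 < C := by linarith
  refine bdd_of_pairs (L := 10) (K := 2 * C ^ 5) (E := 26 * C ^ 16)
    (c := 1 / (4 * C)) (by positivity) (by positivity) hD ?_ ?_
  · intro N hN hrec hK
    obtain ⟨n, rfl⟩ : ∃ n, N = n + 10 := ⟨N - 10, by omega⟩
    refine ⟨n + 2, by omega, ?_⟩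
    have hA := claimA2 (C := C) (H := x (n + 10)) (a := x (n + 9)) (P := x (n + 8))
      (b := x (n + 7)) (c := x (n + 6)) (d := x (n + 5)) (e := x (n + 4)) (f := x (n + 3))
      (g := x (n + 2)) (h := x (n + 1)) hC
      (hx _) (hx _) (hx _) (hx _) (hx _) (hx _) (hx _) (hx _) (hx _)
      (hrec _ (by omega)) (hrec _ (by omega)) (hrec _ (by omega)) (hrec _ (by omega))
      (fun h => L (n + 6) h) (fun h => L (n + 4) h)
      (fun h => S (n + 5) h) (fun h => S (n + 3) h) (fun h => S (n + 2) h)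
      (fun h => S (n + 1) h) (fun h => (S n h).1) hK
    unfold pr
    rw [max_mul_of_nonneg _ _ (by positivity)]
    exact max_le hA.1 hA.2
  · intro q hq H _ hmin h1
    obtain ⟨m, rfl⟩ : ∃ m, q = m + 4 := ⟨q - 4, by omega⟩
    obtain ⟨D, hDe⟩ : ∃ D : ℝ, D = pr x (m + 4) := ⟨_, rfl⟩
    have hD0 : 0 < D := by rw [hDe]; exact hD _
    have e1 : x (m + 4) ≤ D := by rw [hDe]; exact le_max_left _ _
    have e0 : x (m + 5) ≤ D := by rw [hDe]; exact le_max_right _ _
    rw [← hDe]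
    have key : 1 < 4 * C * D := by
      by_contra hle
      push Not at hle
      have hCD : C * D ≤ 1 / 4 := by linarith
      have c4 : C * x (m + 4) ≤ 1 / 4 := (mul_le_mul_of_nonneg_left e1 hC0.le).trans hCD
      have c5 : C * x (m + 5) ≤ 1 / 4 := (mul_le_mul_of_nonneg_left e0 hC0.le).trans hCD
      obtain ⟨s1, s2⟩ := S (m + 1) (by
        change C * x (m + 5) ≤ 1
        linarith)
      obtain ⟨s3, -⟩ := S m (by linarith)
      change x (m + 3) ≤ C * x (m + 5) * (x (m + 4) + x (m + 2)) at s1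
      change x (m + 1) ≤ C * x (m + 5) * (x (m + 4) + x (m + 2)) at s2
      have n4 := hx (m + 4)
      have n3 := hx (m + 3)
      have n2 := hx (m + 2)
      have n1 := hx (m + 1)
      have t1 : C * x (m + 5) * (x (m + 4) + x (m + 2)) ≤ 1 / 4 * (D + x (m + 2)) :=
        mul_le_mul c5 (by linarith) (by linarith) (by norm_num)
      have t2 : C * x (m + 4) * (x (m + 3) + x (m + 1)) ≤ 1 / 4 * (x (m + 3) + x (m + 1)) :=
        mul_le_mul_of_nonneg_right c4 (by linarith)
      have w : x (m + 2) ≤ D / 2 := by linarith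
      have u : x (m + 3) ≤ D / 2 := by linarith
      have hp : pr x (m + 2) ≤ D / 2 := max_le w u
      have := hmin (m + 2) (by omega)
      rw [← hDe] at this
      linarith
    have : 1 / (4 * C) ≤ D := by
      rw [div_le_iff₀ (by positivity)]
      linarith
    calc 1 / (4 * C) ≤ D := this
      _ = D * 1 := (mul_one _).symm
      _ ≤ D * H := mul_le_mul_of_nonneg_left h1 hD0.le

/-- The common form of (20,18) and (20,26). -/
theorem bdd_20_aux {x : ℕ → ℝ} {b2 b4 B1 B3 B4 : ℝ} (hb2 : 0 < b2) (hb4 : 0 < b4)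
    (hB1 : 0 < B1) (hB3 : 0 ≤ B3) (hB4 : 0 < B4) (hn : ∀ n, 0 ≤ x n)
    (hden : ∀ n, 0 < B1 * x (n + 3) + B3 * x (n + 1) + B4 * x n)
    (heq : ∀ n, x (n + 4) * (B1 * x (n + 3) + B3 * x (n + 1) + B4 * x n) =
      b2 * x (n + 2) + b4 * x n) : ∃ M : ℝ, ∀ n, x n ≤ M := by
  obtain ⟨C, hC1, c1, c2, c3, c4, c5, c6⟩ : ∃ C : ℝ, 1 ≤ C ∧ 2 * B4 ≤ C * b4 ∧
      B1 + B3 ≤ C * b2 ∧ 2 * (B1 + B3) ≤ C * b4 ∧ 2 * b4 ≤ C * B4 ∧ b2 ≤ C * B1 ∧
      2 * b2 ≤ C * B4 := by
    have a1 : 0 < 2 * B4 / b4 := by positivity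
    have a2 : 0 < (B1 + B3) / b2 := by positivity
    have a3 : 0 < 2 * (B1 + B3) / b4 := by positivity
    have a4 : 0 < 2 * b4 / B4 := by positivity
    have a5 : 0 < b2 / B1 := by positivity
    have a6 : 0 < 2 * b2 / B4 := by positivity
    refine ⟨1 + 2 * B4 / b4 + (B1 + B3) / b2 + 2 * (B1 + B3) / b4 + 2 * b4 / B4 +
      b2 / B1 + 2 * b2 / B4, by linarith, ?_, ?_, ?_, ?_, ?_, ?_⟩
    · rw [← div_le_iff₀ hb4]; linarith
    · rw [← div_le_iff₀ hb2]; linarith
    · rw [← div_le_iff₀ hb4]; linarith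
    · rw [← div_le_iff₀ hB4]; linarith
    · rw [← div_le_iff₀ hB1]; linarith
    · rw [← div_le_iff₀ hB4]; linarith
  have hC0 : 0 < C := by linarith
  obtain ⟨M, hM⟩ := bdd_SL2 (x := fun n => x (n + 4)) (C := C) (fun n => hn _) hC1 (by
      intro n hs
      have e := heq (n + 4)
      have x8 := hn (n + 8)
      have x7 := hn (n + 7)
      have x6 := hn (n + 6)
      have x5 := hn (n + 5)
      have x4 := hn (n + 4)
      change C * x (n + 8) ≤ 1 at hs
      change x (n + 6) ≤ C * x (n + 8) * (x (n + 7) + x (n + 5)) ∧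
        x (n + 4) ≤ C * x (n + 8) * (x (n + 7) + x (n + 5))
      change x (n + 8) * (B1 * x (n + 7) + B3 * x (n + 5) + B4 * x (n + 4)) =
        b2 * x (n + 6) + b4 * x (n + 4) at e
      have k1 : 2 * (B4 * x (n + 8)) ≤ b4 := by
        have : 2 * B4 * x (n + 8) ≤ C * b4 * x (n + 8) := mul_le_mul_of_nonneg_right c1 x8
        have h2 : b4 * (C * x (n + 8)) ≤ b4 * 1 := mul_le_mul_of_nonneg_left hs hb4.le
        linarith
      have k2 : 2 * (B4 * x (n + 8)) * x (n + 4) ≤ b4 * x (n + 4) :=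
        mul_le_mul_of_nonneg_right k1 x4
      have t0 : 0 ≤ x (n + 8) * (x (n + 7) + x (n + 5)) := mul_nonneg x8 (by linarith)
      have r1 := mul_le_mul_of_nonneg_right c2 t0
      have r2 := mul_le_mul_of_nonneg_right c3 t0
      have u1 := mul_nonneg hB1.le (mul_nonneg x8 x5)
      have u2 := mul_nonneg hB3 (mul_nonneg x8 x7)
      have w : (B1 + B3) * (x (n + 8) * (x (n + 7) + x (n + 5))) =
          x (n + 8) * (B1 * x (n + 7) + B3 * x (n + 5)) + (B1 * (x (n + 8) * x (n + 5)) +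
          B3 * (x (n + 8) * x (n + 7))) := by ring
      have w2 : x (n + 8) * (B1 * x (n + 7) + B3 * x (n + 5) + B4 * x (n + 4)) =
          x (n + 8) * (B1 * x (n + 7) + B3 * x (n + 5)) + B4 * x (n + 8) * x (n + 4) := by ring
      have p6 := mul_nonneg hb2.le x6
      have p4 := mul_nonneg hb4.le x4
      constructor
      · apply le_of_mul_le_mul_left _ hb2
        linarith
      · apply le_of_mul_le_mul_left _ hb4
        linarith) (by
      intro n hl
      have e := heq (n + 4)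
      have x8 := hn (n + 8)
      have x7 := hn (n + 7)
      have x6 := hn (n + 6)
      have x5 := hn (n + 5)
      have x4 := hn (n + 4)
      change C ≤ x (n + 8) at hl
      change x (n + 8) * x (n + 7) ≤ C * x (n + 6) ∧ x (n + 8) * x (n + 4) ≤ C * x (n + 6)
      change x (n + 8) * (B1 * x (n + 7) + B3 * x (n + 5) + B4 * x (n + 4)) =
        b2 * x (n + 6) + b4 * x (n + 4) at e
      have k1 : 2 * b4 ≤ B4 * x (n + 8) := by
        have : B4 * C ≤ B4 * x (n + 8) := mul_le_mul_of_nonneg_left hl hB4.le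
        linarith
      have k2 : 2 * b4 * x (n + 4) ≤ B4 * x (n + 8) * x (n + 4) :=
        mul_le_mul_of_nonneg_right k1 x4
      have s7 := mul_nonneg hB1.le (mul_nonneg x8 x7)
      have s5 := mul_nonneg hB3 (mul_nonneg x8 x5)
      have s4 := mul_nonneg hB4.le (mul_nonneg x8 x4)
      have r6 := mul_le_mul_of_nonneg_right c5 x6
      have r7 := mul_le_mul_of_nonneg_right c6 x6
      have p4 := mul_nonneg hb4.le x4
      have w2 : x (n + 8) * (B1 * x (n + 7) + B3 * x (n + 5) + B4 * x (n + 4)) =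
          B1 * (x (n + 8) * x (n + 7)) + B3 * (x (n + 8) * x (n + 5)) +
          B4 * x (n + 8) * x (n + 4) := by ring
      constructor
      · apply le_of_mul_le_mul_left _ hB1
        linarith
      · apply le_of_mul_le_mul_left _ hB4
        linarith) (by
      intro q
      by_contra hcon
      have hle : pr (fun n => x (n + 4)) q ≤ 0 := not_lt.mp hcon
      have h1 : x (q + 4) ≤ 0 := (le_max_left _ _).trans hle
      have h2 : x (q + 5) ≤ 0 := (le_max_right _ _).trans hle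
      have h1' : x (q + 4) = 0 := le_antisymm h1 (hn _)
      have h2' : x (q + 5) = 0 := le_antisymm h2 (hn _)
      have e0 := heq q
      have e := heq (q + 1)
      have d1 := hden (q + 1)
      change x (q + 5) * (B1 * x (q + 4) + B3 * x (q + 2) + B4 * x (q + 1)) =
        b2 * x (q + 3) + b4 * x (q + 1) at e
      change 0 < B1 * x (q + 4) + B3 * x (q + 2) + B4 * x (q + 1) at d1
      rw [h2', zero_mul] at e
      rw [h1', zero_mul] at e0
      have y1 := mul_nonneg hb2.le (hn (q + 3))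
      have y2 := mul_nonneg hb4.le (hn (q + 1))
      have y3 := mul_nonneg hb2.le (hn (q + 2))
      have y4 := mul_nonneg hb4.le (hn q)
      have z1 : b4 * x (q + 1) = 0 := by linarith
      have z2 : b2 * x (q + 2) = 0 := by linarith
      have w1 : x (q + 1) = 0 := by
        rcases mul_eq_zero.mp z1 with h | h
        · exact absurd h hb4.ne'
        · exact h
      have w2 : x (q + 2) = 0 := by
        rcases mul_eq_zero.mp z2 with h | h
        · exact absurd h hb2.ne'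
        · exact h
      rw [w1, w2, h1'] at d1
      simp at d1)
  exact bdd_of_shift 4 hM

theorem bdd_20_18 : BoundedOnly (fs 20) (fs 18) := by
  intro b B hb hB x hx
  have b0 : b 0 = 0 := hb.2 0 (by decide)
  have b1 : b 1 = 0 := hb.2 1 (by decide)
  have b2 : 0 < b 2 := hb.1 2 (by decide)
  have b3 : b 3 = 0 := hb.2 3 (by decide)
  have b4 : 0 < b 4 := hb.1 4 (by decide)
  have B0 : B 0 = 0 := hB.2 0 (by decide)
  have B1 : 0 < B 1 := hB.1 1 (by decide)
  have B2 : B 2 = 0 := hB.2 2 (by decide)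
  have B3 : B 3 = 0 := hB.2 3 (by decide)
  have B4 : 0 < B 4 := hB.1 4 (by decide)
  refine bdd_20_aux (B3 := 0) b2 b4 B1 le_rfl B4 (hx.nonneg hb.nonneg) ?_ ?_
  · intro n
    have := hx.den_pos n
    simp only [lin, B0, B2, B3, zero_add, zero_mul, add_zero] at this
    rw [zero_mul, add_zero]
    exact this
  · intro n
    have h1 := hx.step n
    have h2 := hx.den_pos n
    rw [eq_div_iff h2.ne'] at h1
    simp only [lin, b0, b1, b3, B0, B2, B3, zero_add, zero_mul, add_zero] at h1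
    rw [zero_mul, add_zero]
    exact h1

theorem bdd_20_26 : BoundedOnly (fs 20) (fs 26) := by
  intro b B hb hB x hx
  have b0 : b 0 = 0 := hb.2 0 (by decide)
  have b1 : b 1 = 0 := hb.2 1 (by decide)
  have b2 : 0 < b 2 := hb.1 2 (by decide)
  have b3 : b 3 = 0 := hb.2 3 (by decide)
  have b4 : 0 < b 4 := hb.1 4 (by decide)
  have B0 : B 0 = 0 := hB.2 0 (by decide)
  have B1 : 0 < B 1 := hB.1 1 (by decide)
  have B2 : B 2 = 0 := hB.2 2 (by decide)
  have B3 : 0 < B 3 := hB.1 3 (by decide)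
  have B4 : 0 < B 4 := hB.1 4 (by decide)
  refine bdd_20_aux b2 b4 B1 B3.le B4 (hx.nonneg hb.nonneg) ?_ ?_
  · intro n
    have := hx.den_pos n
    simp only [lin, B0, B2, zero_add, zero_mul, add_zero] at this
    exact this
  · intro n
    have h1 := hx.step n
    have h2 := hx.den_pos n
    rw [eq_div_iff h2.ne'] at h1
    simp only [lin, b0, b1, b3, B0, B2, zero_add, zero_mul, add_zero] at h1
    exact h1

end Pool.Agent.RatRec
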