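import Pool.Agent.Lib_helper42.Rat.Pair

/-!
The cases (12,26) and (28,26) of problem MP_88c4fb_an.
-/

set_option autoImplicit false

namespace Pool.Agent.RatRec

/-- Boundedness of a shift gives boundedness. -/
theorem bdd_of_shift {x : ℕ → ℝ} {M : ℝ} (k : ℕ) (h : ∀ n, x (n + k) ≤ M) :
    ∃ M' : ℝ, ∀ n, x n ≤ M' := by
  refine ⟨max M (∑ m ∈ Finset.range k, |x m|), fun n => ?_⟩
  by_cases hn : n < k
  · exact ((le_abs_self _).trans
      (Finset.single_le_sum (f := fun m => |x m|) (fun i _ => abs_nonneg _)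
        (Finset.mem_range.mpr hn))).trans (le_max_right _ _)
  · obtain ⟨m, rfl⟩ : ∃ m, n = m + k := ⟨n - k, by omega⟩
    exact (h m).trans (le_max_left _ _)

theorem bdd_12_26 : BoundedOnly (fs 12) (fs 26) := by
  intro b B hb hB x hx
  have b0 : b 0 = 0 := hb.2 0 (by decide)
  have b1 : b 1 = 0 := hb.2 1 (by decide)
  have b2 : 0 < b 2 := hb.1 2 (by decide)
  have b3 : 0 < b 3 := hb.1 3 (by decide)
  have b4 : b 4 = 0 := hb.2 4 (by decide)
  have B0 : B 0 = 0 := hB.2 0 (by decide)
  have B1 : 0 < B 1 := hB.1 1 (by decide)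
  have B2 : B 2 = 0 := hB.2 2 (by decide)
  have B3 : 0 < B 3 := hB.1 3 (by decide)
  have B4 : 0 < B 4 := hB.1 4 (by decide)
  have hn := hx.nonneg hb.nonneg
  have hden : ∀ n, 0 < B 1 * x (n + 3) + B 3 * x (n + 1) + B 4 * x n := by
    intro n
    have := hx.den_pos n
    simp only [lin, B0, B2, zero_add, zero_mul, add_zero] at this
    exact this
  have heq : ∀ n, x (n + 4) * (B 1 * x (n + 3) + B 3 * x (n + 1) + B 4 * x n) =
      b 2 * x (n + 2) + b 3 * x (n + 1) := by
    intro n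
    have h1 := hx.step n
    have h2 := hx.den_pos n
    rw [eq_div_iff h2.ne'] at h1
    simp only [lin, b0, b1, b4, B0, B2, zero_add, zero_mul, add_zero] at h1
    exact h1
  obtain ⟨C, hC1, c1, c2, c3, c4, c5, c6, c7⟩ : ∃ C : ℝ, 1 ≤ C ∧ 2 * B 3 ≤ C * b 3 ∧
      B 1 + B 4 ≤ C * b 2 ∧ 2 * (B 1 + B 4) ≤ C * b 3 ∧ 2 * b 3 ≤ C * B 3 ∧ b 2 ≤ C * B 1 ∧
      2 * b 2 ≤ C * B 3 ∧ b 2 ≤ C * B 4 := by
    have a1 : 0 < 2 * B 3 / b 3 := by positivity
    have a2 : 0 < (B 1 + B 4) / b 2 := by positivity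
    have a3 : 0 < 2 * (B 1 + B 4) / b 3 := by positivity
    have a4 : 0 < 2 * b 3 / B 3 := by positivity
    have a5 : 0 < b 2 / B 1 := by positivity
    have a6 : 0 < 2 * b 2 / B 3 := by positivity
    have a7 : 0 < b 2 / B 4 := by positivity
    refine ⟨1 + 2 * B 3 / b 3 + (B 1 + B 4) / b 2 + 2 * (B 1 + B 4) / b 3 + 2 * b 3 / B 3 +
      b 2 / B 1 + 2 * b 2 / B 3 + b 2 / B 4, by linarith, ?_, ?_, ?_, ?_, ?_, ?_, ?_⟩
    · rw [← div_le_iff₀ b3]; linarith
    · rw [← div_le_iff₀ b2]; linarith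
    · rw [← div_le_iff₀ b3]; linarith
    · rw [← div_le_iff₀ B3]; linarith
    · rw [← div_le_iff₀ B1]; linarith
    · rw [← div_le_iff₀ B3]; linarith
    · rw [← div_le_iff₀ B4]; linarith
  have hC0 : 0 < C := by linarith
  obtain ⟨M, hM⟩ := bdd_SL (x := fun n => x (n + 4)) (C := C) (fun n => hn _) hC1 (by
      intro n hs
      have e := heq (n + 4)
      have x8 := hn (n + 8)
      have x7 := hn (n + 7)
      have x6 := hn (n + 6)
      have x5 := hn (n + 5)
      have x4 := hn (n + 4)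
      change C * x (n + 8) ≤ 1 at hs
      change x (n + 6) ≤ C * x (n + 8) * (x (n + 7) + x (n + 4)) ∧
        x (n + 5) ≤ C * x (n + 8) * (x (n + 7) + x (n + 4))
      have q1 : n + 4 + 4 = n + 8 := by ring
      have q2 : n + 4 + 3 = n + 7 := by ring
      have q3 : n + 4 + 2 = n + 6 := by ring
      have q4 : n + 4 + 1 = n + 5 := by ring
      rw [q1, q2, q3, q4] at e
      -- `B3 x ≤ b3 / 2`
      have k1 : 2 * (B 3 * x (n + 8)) ≤ b 3 := by
        have : 2 * B 3 * x (n + 8) ≤ C * b 3 * x (n + 8) := mul_le_mul_of_nonneg_right c1 x8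
        have h2 : b 3 * (C * x (n + 8)) ≤ b 3 * 1 := mul_le_mul_of_nonneg_left hs b3.le
        linarith
      have k2 : 2 * (B 3 * x (n + 8)) * x (n + 5) ≤ b 3 * x (n + 5) :=
        mul_le_mul_of_nonneg_right k1 x5
      have k3 : B 1 * x (n + 7) + B 4 * x (n + 4) ≤ (B 1 + B 4) * (x (n + 7) + x (n + 4)) := by
        nlinarith
      have k4 : x (n + 8) * (B 1 * x (n + 7) + B 4 * x (n + 4)) ≤
          x (n + 8) * ((B 1 + B 4) * (x (n + 7) + x (n + 4))) :=
        mul_le_mul_of_nonneg_left k3 x8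
      have t0 : 0 ≤ x (n + 8) * (x (n + 7) + x (n + 4)) := mul_nonneg x8 (by linarith)
      have k5 : (B 1 + B 4) * (x (n + 8) * (x (n + 7) + x (n + 4))) ≤
          C * b 2 * (x (n + 8) * (x (n + 7) + x (n + 4))) := mul_le_mul_of_nonneg_right c2 t0
      have k6 : 2 * (B 1 + B 4) * (x (n + 8) * (x (n + 7) + x (n + 4))) ≤
          C * b 3 * (x (n + 8) * (x (n + 7) + x (n + 4))) := mul_le_mul_of_nonneg_right c3 t0
      have p5 := mul_nonneg b3.le x5
      have p6 := mul_nonneg b2.le x6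
      constructor
      · apply le_of_mul_le_mul_left _ b2
        linarith
      · apply le_of_mul_le_mul_left _ b3
        linarith) (by
      intro n hl
      have e := heq (n + 4)
      have x8 := hn (n + 8)
      have x7 := hn (n + 7)
      have x6 := hn (n + 6)
      have x5 := hn (n + 5)
      have x4 := hn (n + 4)
      change C ≤ x (n + 8) at hl
      change x (n + 8) * x (n + 7) ≤ C * x (n + 6) ∧ x (n + 8) * x (n + 5) ≤ C * x (n + 6) ∧
        x (n + 8) * x (n + 4) ≤ C * x (n + 6)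
      have q1 : n + 4 + 4 = n + 8 := by ring
      have q2 : n + 4 + 3 = n + 7 := by ring
      have q3 : n + 4 + 2 = n + 6 := by ring
      have q4 : n + 4 + 1 = n + 5 := by ring
      rw [q1, q2, q3, q4] at e
      have k1 : 2 * b 3 ≤ B 3 * x (n + 8) := by
        have : B 3 * C ≤ B 3 * x (n + 8) := mul_le_mul_of_nonneg_left hl B3.le
        linarith
      have k2 : 2 * b 3 * x (n + 5) ≤ B 3 * x (n + 8) * x (n + 5) :=
        mul_le_mul_of_nonneg_right k1 x5
      have m5 := mul_nonneg x8 x5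
      have m7 := mul_nonneg x8 x7
      have m4 := mul_nonneg x8 x4
      have r5 := mul_le_mul_of_nonneg_right c5 x6
      have r6 := mul_le_mul_of_nonneg_right c6 x6
      have r7 := mul_le_mul_of_nonneg_right c7 x6
      have s5 := mul_nonneg B3.le m5
      have s7 := mul_nonneg B1.le m7
      have s4 := mul_nonneg B4.le m4
      have u5 := mul_nonneg b3.le x5
      refine ⟨?_, ?_, ?_⟩
      · apply le_of_mul_le_mul_left _ B1
        linarith
      · apply le_of_mul_le_mul_left _ B3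
        linarith
      · apply le_of_mul_le_mul_left _ B4
        linarith) (by
      intro q
      by_contra hcon
      have hle : pr (fun n => x (n + 4)) q ≤ 0 := not_lt.mp hcon
      have h1 : x (q + 4) ≤ 0 := (le_max_left _ _).trans hle
      have h2 : x (q + 5) ≤ 0 := (le_max_right _ _).trans hle
      have h1' : x (q + 4) = 0 := le_antisymm h1 (hn _)
      have h2' : x (q + 5) = 0 := le_antisymm h2 (hn _)
      have e := heq (q + 3)
      have d3 := hden (q + 3)
      have d4 := hden (q + 4)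
      have q1 : q + 3 + 4 = q + 7 := by ring
      have q2 : q + 3 + 2 = q + 5 := by ring
      have q3 : q + 3 + 1 = q + 4 := by ring
      have q4 : q + 4 + 3 = q + 7 := by ring
      have q5 : q + 4 + 1 = q + 5 := by ring
      rw [q1, q2, q3, h1', h2'] at e
      rw [q4, q5, h1', h2'] at d4
      have e' : x (q + 7) * (B 1 * x (q + 3 + 3) + B 3 * 0 + B 4 * x (q + 3)) = 0 := by
        rw [e]; ring
      rw [q3, h1'] at d3
      rcases mul_eq_zero.mp e' with h | h
      · rw [h] at d4; simp at d4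
      · rw [h] at d3; exact lt_irrefl _ d3)
  exact bdd_of_shift 4 hM

theorem bdd_28_26 : BoundedOnly (fs 28) (fs 26) := by
  intro b B hb hB x hx
  have b0 : b 0 = 0 := hb.2 0 (by decide)
  have b1 : b 1 = 0 := hb.2 1 (by decide)
  have b2 : 0 < b 2 := hb.1 2 (by decide)
  have b3 : 0 < b 3 := hb.1 3 (by decide)
  have b4 : 0 < b 4 := hb.1 4 (by decide)
  have B0 : B 0 = 0 := hB.2 0 (by decide)
  have B1 : 0 < B 1 := hB.1 1 (by decide)
  have B2 : B 2 = 0 := hB.2 2 (by decide)
  have B3 : 0 < B 3 := hB.1 3 (by decide)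
  have B4 : 0 < B 4 := hB.1 4 (by decide)
  have hn := hx.nonneg hb.nonneg
  have hden : ∀ n, 0 < B 1 * x (n + 3) + B 3 * x (n + 1) + B 4 * x n := by
    intro n
    have := hx.den_pos n
    simp only [lin, B0, B2, zero_add, zero_mul, add_zero] at this
    exact this
  have heq : ∀ n, x (n + 4) * (B 1 * x (n + 3) + B 3 * x (n + 1) + B 4 * x n) =
      b 2 * x (n + 2) + b 3 * x (n + 1) + b 4 * x n := by
    intro n
    have h1 := hx.step n
    have h2 := hx.den_pos n
    rw [eq_div_iff h2.ne'] at h1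
    simp only [lin, b0, b1, B0, B2, zero_add, zero_mul, add_zero] at h1
    exact h1
  obtain ⟨C, hC1, c1, c2, c3, c4, c5, c6, c7, c8, c9⟩ : ∃ C : ℝ, 1 ≤ C ∧ 2 * B 3 ≤ C * b 3 ∧
      B 1 ≤ C * b 2 ∧ 2 * B 1 ≤ C * b 3 ∧ 2 * b 3 ≤ C * B 3 ∧ b 2 ≤ C * B 1 ∧
      2 * b 2 ≤ C * B 3 ∧ 2 * b 2 ≤ C * B 4 ∧ 2 * B 4 ≤ C * b 4 ∧ 2 * b 4 ≤ C * B 4 := by
    have a1 : 0 < 2 * B 3 / b 3 := by positivity
    have a2 : 0 < B 1 / b 2 := by positivity
    have a3 : 0 < 2 * B 1 / b 3 := by positivity
    have a4 : 0 < 2 * b 3 / B 3 := by positivity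
    have a5 : 0 < b 2 / B 1 := by positivity
    have a6 : 0 < 2 * b 2 / B 3 := by positivity
    have a7 : 0 < 2 * b 2 / B 4 := by positivity
    have a8 : 0 < 2 * B 4 / b 4 := by positivity
    have a9 : 0 < 2 * b 4 / B 4 := by positivity
    refine ⟨1 + 2 * B 3 / b 3 + B 1 / b 2 + 2 * B 1 / b 3 + 2 * b 3 / B 3 +
      b 2 / B 1 + 2 * b 2 / B 3 + 2 * b 2 / B 4 + 2 * B 4 / b 4 + 2 * b 4 / B 4, by linarith,
      ?_, ?_, ?_, ?_, ?_, ?_, ?_, ?_, ?_⟩
    · rw [← div_le_iff₀ b3]; linarith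
    · rw [← div_le_iff₀ b2]; linarith
    · rw [← div_le_iff₀ b3]; linarith
    · rw [← div_le_iff₀ B3]; linarith
    · rw [← div_le_iff₀ B1]; linarith
    · rw [← div_le_iff₀ B3]; linarith
    · rw [← div_le_iff₀ B4]; linarith
    · rw [← div_le_iff₀ b4]; linarith
    · rw [← div_le_iff₀ B4]; linarith
  have hC0 : 0 < C := by linarith
  obtain ⟨M, hM⟩ := bdd_SL (x := fun n => x (n + 4)) (C := C) (fun n => hn _) hC1 (by
      intro n hs
      have e := heq (n + 4)
      have x8 := hn (n + 8)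
      have x7 := hn (n + 7)
      have x6 := hn (n + 6)
      have x5 := hn (n + 5)
      have x4 := hn (n + 4)
      change C * x (n + 8) ≤ 1 at hs
      change x (n + 6) ≤ C * x (n + 8) * (x (n + 7) + x (n + 4)) ∧
        x (n + 5) ≤ C * x (n + 8) * (x (n + 7) + x (n + 4))
      have q1 : n + 4 + 4 = n + 8 := by ring
      have q2 : n + 4 + 3 = n + 7 := by ring
      have q3 : n + 4 + 2 = n + 6 := by ring
      have q4 : n + 4 + 1 = n + 5 := by ring
      rw [q1, q2, q3, q4] at e
      have k1 : 2 * (B 3 * x (n + 8)) ≤ b 3 := by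
        have : 2 * B 3 * x (n + 8) ≤ C * b 3 * x (n + 8) := mul_le_mul_of_nonneg_right c1 x8
        have h2 : b 3 * (C * x (n + 8)) ≤ b 3 * 1 := mul_le_mul_of_nonneg_left hs b3.le
        linarith
      have k1' : 2 * (B 4 * x (n + 8)) ≤ b 4 := by
        have : 2 * B 4 * x (n + 8) ≤ C * b 4 * x (n + 8) := mul_le_mul_of_nonneg_right c8 x8
        have h2 : b 4 * (C * x (n + 8)) ≤ b 4 * 1 := mul_le_mul_of_nonneg_left hs b4.le
        linarith
      have k2 : 2 * (B 3 * x (n + 8)) * x (n + 5) ≤ b 3 * x (n + 5) :=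
        mul_le_mul_of_nonneg_right k1 x5
      have k2' : 2 * (B 4 * x (n + 8)) * x (n + 4) ≤ b 4 * x (n + 4) :=
        mul_le_mul_of_nonneg_right k1' x4
      have t1 : 0 ≤ x (n + 8) * x (n + 4) := mul_nonneg x8 x4
      have t0 : 0 ≤ x (n + 8) * (x (n + 7) + x (n + 4)) := mul_nonneg x8 (by linarith)
      have k5 : B 1 * (x (n + 8) * (x (n + 7) + x (n + 4))) ≤
          C * b 2 * (x (n + 8) * (x (n + 7) + x (n + 4))) := mul_le_mul_of_nonneg_right c2 t0
      have k6 : 2 * B 1 * (x (n + 8) * (x (n + 7) + x (n + 4))) ≤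
          C * b 3 * (x (n + 8) * (x (n + 7) + x (n + 4))) := mul_le_mul_of_nonneg_right c3 t0
      have p5 := mul_nonneg b3.le x5
      have p4 := mul_nonneg b4.le x4
      have p6 := mul_nonneg b2.le x6
      have p7 := mul_nonneg B1.le t1
      constructor
      · apply le_of_mul_le_mul_left _ b2
        linarith
      · apply le_of_mul_le_mul_left _ b3
        linarith) (by
      intro n hl
      have e := heq (n + 4)
      have x8 := hn (n + 8)
      have x7 := hn (n + 7)
      have x6 := hn (n + 6)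
      have x5 := hn (n + 5)
      have x4 := hn (n + 4)
      change C ≤ x (n + 8) at hl
      change x (n + 8) * x (n + 7) ≤ C * x (n + 6) ∧ x (n + 8) * x (n + 5) ≤ C * x (n + 6) ∧
        x (n + 8) * x (n + 4) ≤ C * x (n + 6)
      have q1 : n + 4 + 4 = n + 8 := by ring
      have q2 : n + 4 + 3 = n + 7 := by ring
      have q3 : n + 4 + 2 = n + 6 := by ring
      have q4 : n + 4 + 1 = n + 5 := by ring
      rw [q1, q2, q3, q4] at e
      have k1 : 2 * b 3 ≤ B 3 * x (n + 8) := by
        have : B 3 * C ≤ B 3 * x (n + 8) := mul_le_mul_of_nonneg_left hl B3.le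
        linarith
      have k1' : 2 * b 4 ≤ B 4 * x (n + 8) := by
        have : B 4 * C ≤ B 4 * x (n + 8) := mul_le_mul_of_nonneg_left hl B4.le
        linarith
      have k2 : 2 * b 3 * x (n + 5) ≤ B 3 * x (n + 8) * x (n + 5) :=
        mul_le_mul_of_nonneg_right k1 x5
      have k2' : 2 * b 4 * x (n + 4) ≤ B 4 * x (n + 8) * x (n + 4) :=
        mul_le_mul_of_nonneg_right k1' x4
      have m5 := mul_nonneg x8 x5
      have m7 := mul_nonneg x8 x7
      have m4 := mul_nonneg x8 x4
      have r5 := mul_le_mul_of_nonneg_right c5 x6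
      have r6 := mul_le_mul_of_nonneg_right c6 x6
      have r7 := mul_le_mul_of_nonneg_right c7 x6
      have s5 := mul_nonneg B3.le m5
      have s7 := mul_nonneg B1.le m7
      have s4 := mul_nonneg B4.le m4
      have u5 := mul_nonneg b3.le x5
      have u4 := mul_nonneg b4.le x4
      refine ⟨?_, ?_, ?_⟩
      · apply le_of_mul_le_mul_left _ B1
        linarith
      · apply le_of_mul_le_mul_left _ B3
        linarith
      · apply le_of_mul_le_mul_left _ B4
        linarith) (by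
      intro q
      by_contra hcon
      have hle : pr (fun n => x (n + 4)) q ≤ 0 := not_lt.mp hcon
      have h1 : x (q + 4) ≤ 0 := (le_max_left _ _).trans hle
      have h2 : x (q + 5) ≤ 0 := (le_max_right _ _).trans hle
      have h1' : x (q + 4) = 0 := le_antisymm h1 (hn _)
      have h2' : x (q + 5) = 0 := le_antisymm h2 (hn _)
      have e := heq (q + 1)
      have d1 := hden (q + 1)
      have q1 : q + 1 + 4 = q + 5 := by ring
      have q2 : q + 1 + 3 = q + 4 := by ring
      have q3 : q + 1 + 1 = q + 2 := by ring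
      rw [q1, q2, q3, h1', h2'] at e
      rw [q2, q3, h1'] at d1
      have y1 := mul_nonneg b2.le (hn (q + 1 + 2))
      have y2 := mul_nonneg b3.le (hn (q + 2))
      have y3 := mul_nonneg b4.le (hn (q + 1))
      have z2 : b 3 * x (q + 2) = 0 := by linarith
      have z3 : b 4 * x (q + 1) = 0 := by linarith
      have w2 : x (q + 2) = 0 := by
        rcases mul_eq_zero.mp z2 with h | h
        · exact absurd h b3.ne'
        · exact h
      have w3 : x (q + 1) = 0 := by
        rcases mul_eq_zero.mp z3 with h | h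
        · exact absurd h b4.ne'
        · exact h
      rw [w2, w3] at d1
      simp at d1)
  exact bdd_of_shift 4 hM

end Pool.Agent.RatRec
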