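import Pool.Agent.Lib_helper61.Rat.Window

/-!
Boundedness from small pairs: the cases (12,26) and (28,26) of problem MP_88c4fb_an.
-/

set_option autoImplicit false

namespace Pool.Agent.RatRec

/-- Two consecutive terms. -/
noncomputable def pr (x : ℕ → ℝ) (q : ℕ) : ℝ := max (x q) (x (q + 1))

/-- If every large record forces a very small pair and small pairs force large terms, then the
sequence is bounded. -/
theorem bdd_of_pairs {x : ℕ → ℝ} {L : ℕ} {K E c : ℝ} (hE : 0 < E) (hc : 0 < c)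
    (hD : ∀ q, 0 < pr x q)
    (hA : ∀ N, L ≤ N → (∀ m, m < N → x m ≤ x N) → K ≤ x N →
      ∃ q, q < N ∧ pr x q * x N ^ 2 ≤ E)
    (hB : ∀ q, 4 ≤ q → ∀ H, (∀ m, m ≤ q + 1 → x m ≤ H) → (∀ p, p < q → pr x q ≤ pr x p) →
      1 ≤ H → c ≤ pr x q * H) : ∃ M : ℝ, ∀ n, x n ≤ M := by
  set δ : ℝ := min (min (pr x 0) (pr x 1)) (min (pr x 2) (pr x 3)) with hδ
  have hδ0 : 0 < δ := by
    simp only [hδ, lt_min_iff]
    exact ⟨⟨hD 0, hD 1⟩, hD 2, hD 3⟩
  set K' : ℝ := max (max K 1) (max (E / c) (E / δ)) with hK'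
  have key : ∀ N, L ≤ N → (∀ m, m < N → x m ≤ x N) → x N ≤ K' := by
    intro N hN hrec
    by_contra hcon
    push Not at hcon
    have h1 : K < x N := lt_of_le_of_lt ((le_max_left _ _).trans (le_max_left _ _)) hcon
    have h2 : 1 < x N := lt_of_le_of_lt ((le_max_right _ _).trans (le_max_left _ _)) hcon
    have h3 : E / c < x N := lt_of_le_of_lt ((le_max_left _ _).trans (le_max_right _ _)) hcon
    have h4 : E / δ < x N := lt_of_le_of_lt ((le_max_right _ _).trans (le_max_right _ _)) hcon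
    obtain ⟨q', hq', hq'E⟩ := hA N hN hrec h1.le
    -- the smallest pair
    obtain ⟨q, hq, hmin⟩ := Finset.exists_min_image (Finset.range N) (pr x)
      ⟨q', Finset.mem_range.mpr hq'⟩
    rw [Finset.mem_range] at hq
    have hle : pr x q ≤ pr x q' := hmin q' (Finset.mem_range.mpr hq')
    have hqE : pr x q * x N ^ 2 ≤ E :=
      le_trans (mul_le_mul_of_nonneg_right hle (by positivity)) hq'E
    have hDq := hD q
    by_cases hq4 : 4 ≤ q
    · have h5 := hB q hq4 (x N) (by
        intro m hm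
        rcases Nat.lt_or_ge m N with h | h
        · exact hrec m h
        · have : m = N := by omega
          rw [this]) (fun p hp => hmin p (Finset.mem_range.mpr (by omega))) h2.le
      have h6 : c * x N ≤ E := by
        have : c * x N ≤ pr x q * x N * x N := mul_le_mul_of_nonneg_right h5 (by linarith)
        nlinarith
      rw [div_lt_iff₀ hc] at h3
      nlinarith
    · have h5 : δ ≤ pr x q := by
        have : q = 0 ∨ q = 1 ∨ q = 2 ∨ q = 3 := by omega
        rcases this with rfl | rfl | rfl | rfl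
        · exact (min_le_left _ _).trans (min_le_left _ _)
        · exact (min_le_left _ _).trans (min_le_right _ _)
        · exact (min_le_right _ _).trans (min_le_left _ _)
        · exact (min_le_right _ _).trans (min_le_right _ _)
      have h6 : δ * x N ^ 2 ≤ E :=
        le_trans (mul_le_mul_of_nonneg_right h5 (by positivity)) hqE
      rw [div_lt_iff₀ hδ0] at h4
      have : x N * δ ≤ δ * x N ^ 2 := by nlinarith
      linarith
  refine ⟨max K' (∑ m ∈ Finset.range L, |x m|), fun n => ?_⟩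
  rcases bound_of_record key n with h | ⟨m, hm, h⟩
  · exact h.trans (le_max_left _ _)
  · refine h.trans (le_trans ?_ (le_max_right _ _))
    exact (le_abs_self _).trans
      (Finset.single_le_sum (f := fun m => |x m|) (fun i _ => abs_nonneg _)
        (Finset.mem_range.mpr hm))

/-- The estimate for large records. -/
theorem claimA {C H a P b c d e f g h i j k : ℝ} (hC : 1 ≤ C)
    (_ha : 0 ≤ a) (_hP : 0 ≤ P) (_hb : 0 ≤ b) (hc : 0 ≤ c) (hd : 0 ≤ d) (he : 0 ≤ e) (hf : 0 ≤ f)
    (hg : 0 ≤ g) (hh : 0 ≤ h) (hi : 0 ≤ i) (_hj : 0 ≤ j) (_hk : 0 ≤ k)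
    (hdH : d ≤ H) (hfH : f ≤ H) (hgH : g ≤ H) (hiH : i ≤ H) (hkH : k ≤ H)
    (L12 : C ≤ H → H * a ≤ C * P ∧ H * b ≤ C * P ∧ H * c ≤ C * P)
    (L10 : C ≤ P → P * b ≤ C * c ∧ P * d ≤ C * c ∧ P * e ≤ C * c)
    (S9 : C * b ≤ 1 → d ≤ C * b * (c + f) ∧ e ≤ C * b * (c + f))
    (S8 : C * c ≤ 1 → e ≤ C * c * (d + g) ∧ f ≤ C * c * (d + g))
    (S7 : C * d ≤ 1 → f ≤ C * d * (e + h) ∧ g ≤ C * d * (e + h))
    (S6 : C * e ≤ 1 → g ≤ C * e * (f + i) ∧ h ≤ C * e * (f + i))
    (S4 : C * g ≤ 1 → i ≤ C * g * (h + k) ∧ j ≤ C * g * (h + k))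
    (hH : 100 * C ^ 16 ≤ H) :
    g * H ^ 2 ≤ 1000 * C ^ 30 ∧ f * H ^ 2 ≤ 1000 * C ^ 30 := by
  have hC0 : 0 < C := by linarith
  have p1 : ∀ m : ℕ, 1 ≤ C ^ m := fun m => one_le_pow₀ hC
  have pm : ∀ m n : ℕ, m ≤ n → C ^ m ≤ C ^ n := fun m n hmn => pow_le_pow_right₀ hC hmn
  have hH0 : 0 < H := by linarith [p1 16]
  have hCH : C ≤ H := by
    have := pm 1 16 (by norm_num)
    rw [pow_one] at this
    linarith [p1 16]
  obtain ⟨-, l2, l3⟩ := L12 hCH
  -- step 1
  have step1 : H * d ≤ 3 * C ^ 6 ∧ H * e ≤ 3 * C ^ 6 := by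
    by_cases hPC : C ≤ P
    · obtain ⟨-, m2, m3⟩ := L10 hPC
      have hP0 : 0 < P := by linarith
      have hC2 : C ^ 2 ≤ C ^ 6 := pm 2 6 (by norm_num)
      constructor
      · have : P * (H * d) ≤ P * C ^ 2 := by nlinarith
        have := le_of_mul_le_mul_left this hP0
        linarith [p1 6]
      · have : P * (H * e) ≤ P * C ^ 2 := by nlinarith
        have := le_of_mul_le_mul_left this hP0
        linarith [p1 6]
    · push Not at hPC
      have hb2 : H * b ≤ C ^ 2 := by nlinarith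
      have hc2 : H * c ≤ C ^ 2 := by nlinarith
      have hCb : C * b ≤ 1 := by
        have h1 : H * (C * b) ≤ C ^ 3 := by
          calc H * (C * b) = C * (H * b) := by ring
            _ ≤ C * C ^ 2 := mul_le_mul_of_nonneg_left hb2 hC0.le
            _ = C ^ 3 := by ring
        have h2 : C ^ 3 ≤ H := by linarith [pm 3 16 (by norm_num), p1 16]
        have h3 : H * (C * b) ≤ H * 1 := by linarith
        exact le_of_mul_le_mul_left h3 hH0
      have hCc : C * c ≤ 1 := by
        have h1 : H * (C * c) ≤ C ^ 3 := by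
          calc H * (C * c) = C * (H * c) := by ring
            _ ≤ C * C ^ 2 := mul_le_mul_of_nonneg_left hc2 hC0.le
            _ = C ^ 3 := by ring
        have h2 : C ^ 3 ≤ H := by linarith [pm 3 16 (by norm_num), p1 16]
        have h3 : H * (C * c) ≤ H * 1 := by linarith
        exact le_of_mul_le_mul_left h3 hH0
      obtain ⟨s1, s2⟩ := S9 hCb
      obtain ⟨-, s4⟩ := S8 hCc
      have hc1 : c ≤ 1 := by nlinarith
      have hf2 : f ≤ 2 * C ^ 3 := by
        have : C * c * (d + g) ≤ C * c * (2 * H) :=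
          mul_le_mul_of_nonneg_left (by linarith) (by positivity)
        have h2 : C * c * (2 * H) = 2 * C * (H * c) := by ring
        have h3 : 2 * C * (H * c) ≤ 2 * C * C ^ 2 := mul_le_mul_of_nonneg_left hc2 (by positivity)
        have h4 : 2 * C * C ^ 2 = 2 * C ^ 3 := by ring
        linarith
      have hcf : c + f ≤ 3 * C ^ 3 := by linarith [p1 3]
      have hbcf : H * (C * b * (c + f)) ≤ 3 * C ^ 6 := by
        calc H * (C * b * (c + f)) = C * (H * b) * (c + f) := by ring
          _ ≤ C * C ^ 2 * (3 * C ^ 3) :=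
              mul_le_mul (mul_le_mul_of_nonneg_left hb2 hC0.le) hcf (by positivity)
                (by positivity)
          _ = 3 * C ^ 6 := by ring
      exact ⟨(mul_le_mul_of_nonneg_left s1 hH0.le).trans hbcf,
        (mul_le_mul_of_nonneg_left s2 hH0.le).trans hbcf⟩
  obtain ⟨hd3, he3⟩ := step1
  have small : ∀ {t A : ℝ}, H * t ≤ A → A * C ≤ H → C * t ≤ 1 := by
    intro t A h1 h2
    have h3 : H * (C * t) ≤ H * 1 := by
      calc H * (C * t) = C * (H * t) := by ring
        _ ≤ C * A := mul_le_mul_of_nonneg_left h1 hC0.le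
        _ ≤ H * 1 := by linarith
    exact le_of_mul_le_mul_left h3 hH0
  have hCd : C * d ≤ 1 := small hd3 (by nlinarith [pm 7 16 (by norm_num), p1 16])
  have hCe : C * e ≤ 1 := small he3 (by nlinarith [pm 7 16 (by norm_num), p1 16])
  obtain ⟨s7a, s7b⟩ := S7 hCd
  obtain ⟨-, s6b⟩ := S6 hCe
  have he1 : e ≤ 1 := by nlinarith
  have hh2 : h ≤ 6 * C ^ 7 := by
    have h1 : C * e * (f + i) ≤ C * e * (2 * H) :=
      mul_le_mul_of_nonneg_left (by linarith) (by positivity)
    have h2 : C * e * (2 * H) = 2 * C * (H * e) := by ring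
    have h3 : 2 * C * (H * e) ≤ 2 * C * (3 * C ^ 6) :=
      mul_le_mul_of_nonneg_left he3 (by positivity)
    have h4 : 2 * C * (3 * C ^ 6) = 6 * C ^ 7 := by ring
    linarith
  have heh : e + h ≤ 7 * C ^ 7 := by linarith [p1 7]
  have hdeh : H * (C * d * (e + h)) ≤ 21 * C ^ 14 := by
    calc H * (C * d * (e + h)) = C * (H * d) * (e + h) := by ring
      _ ≤ C * (3 * C ^ 6) * (7 * C ^ 7) :=
          mul_le_mul (mul_le_mul_of_nonneg_left hd3 hC0.le) heh (by positivity) (by positivity)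
      _ = 21 * C ^ 14 := by ring
  have hf4 : H * f ≤ 21 * C ^ 14 := (mul_le_mul_of_nonneg_left s7a hH0.le).trans hdeh
  have hg4 : H * g ≤ 21 * C ^ 14 := (mul_le_mul_of_nonneg_left s7b hH0.le).trans hdeh
  have hCg : C * g ≤ 1 := small hg4 (by nlinarith [pm 15 16 (by norm_num), p1 16])
  have hCf : C * f ≤ 1 := small hf4 (by nlinarith [pm 15 16 (by norm_num), p1 16])
  obtain ⟨s4a, -⟩ := S4 hCg
  have hf1 : f ≤ 1 := by nlinarith
  have hi4 : i ≤ 42 * C ^ 15 := by
    have h1 : C * g * (h + k) ≤ C * g * (2 * H) :=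
      mul_le_mul_of_nonneg_left (by linarith [pm 7 16 (by norm_num), p1 16]) (by positivity)
    have h2 : C * g * (2 * H) = 2 * C * (H * g) := by ring
    have h3 : 2 * C * (H * g) ≤ 2 * C * (21 * C ^ 14) :=
      mul_le_mul_of_nonneg_left hg4 (by positivity)
    have h4 : 2 * C * (21 * C ^ 14) = 42 * C ^ 15 := by ring
    linarith
  have hfi : f + i ≤ 43 * C ^ 15 := by linarith [p1 15]
  have hh5 : H * h ≤ 129 * C ^ 22 := by
    calc H * h ≤ H * (C * e * (f + i)) := mul_le_mul_of_nonneg_left s6b hH0.le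
      _ = C * (H * e) * (f + i) := by ring
      _ ≤ C * (3 * C ^ 6) * (43 * C ^ 15) :=
          mul_le_mul (mul_le_mul_of_nonneg_left he3 hC0.le) hfi (by positivity) (by positivity)
      _ = 129 * C ^ 22 := by ring
  have hfin : H ^ 2 * (C * d * (e + h)) ≤ 1000 * C ^ 30 := by
    calc H ^ 2 * (C * d * (e + h)) = C * (H * d) * (H * e + H * h) := by ring
      _ ≤ C * (3 * C ^ 6) * (3 * C ^ 6 + 129 * C ^ 22) :=
          mul_le_mul (mul_le_mul_of_nonneg_left hd3 hC0.le) (by linarith) (by positivity)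
            (by positivity)
      _ = 9 * C ^ 13 + 387 * C ^ 29 := by ring
      _ ≤ 1000 * C ^ 30 := by
          linarith [pm 13 30 (by norm_num), pm 29 30 (by norm_num), p1 30]
  constructor
  · calc g * H ^ 2 = H ^ 2 * g := by ring
      _ ≤ H ^ 2 * (C * d * (e + h)) := mul_le_mul_of_nonneg_left s7b (by positivity)
      _ ≤ _ := hfin
  · calc f * H ^ 2 = H ^ 2 * f := by ring
      _ ≤ H ^ 2 * (C * d * (e + h)) := mul_le_mul_of_nonneg_left s7a (by positivity)
      _ ≤ _ := hfin

/-- Boundedness from the smallness and largeness estimates. -/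
theorem bdd_SL {x : ℕ → ℝ} {C : ℝ} (hx : ∀ n, 0 ≤ x n) (hC : 1 ≤ C)
    (S : ∀ n, C * x (n + 4) ≤ 1 → x (n + 2) ≤ C * x (n + 4) * (x (n + 3) + x n) ∧
      x (n + 1) ≤ C * x (n + 4) * (x (n + 3) + x n))
    (L : ∀ n, C ≤ x (n + 4) → x (n + 4) * x (n + 3) ≤ C * x (n + 2) ∧
      x (n + 4) * x (n + 1) ≤ C * x (n + 2) ∧ x (n + 4) * x n ≤ C * x (n + 2))
    (hD : ∀ q, 0 < pr x q) : ∃ M : ℝ, ∀ n, x n ≤ M := by
  have hC0 : 0 < C := by linarith
  refine bdd_of_pairs (L := 12) (K := 100 * C ^ 16) (E := 1000 * C ^ 30)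
    (c := 1 / (3 * C ^ 2)) (by positivity) (by positivity) hD ?_ ?_
  · intro N hN hrec hK
    obtain ⟨n, rfl⟩ : ∃ n, N = n + 12 := ⟨N - 12, by omega⟩
    refine ⟨n + 4, by omega, ?_⟩
    have hA := claimA (C := C) (H := x (n + 12)) (a := x (n + 11)) (P := x (n + 10))
      (b := x (n + 9)) (c := x (n + 8)) (d := x (n + 7)) (e := x (n + 6)) (f := x (n + 5))
      (g := x (n + 4)) (h := x (n + 3)) (i := x (n + 2)) (j := x (n + 1)) (k := x n) hC
      (hx _) (hx _) (hx _) (hx _) (hx _) (hx _) (hx _) (hx _) (hx _) (hx _) (hx _) (hx _)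
      (hrec _ (by omega)) (hrec _ (by omega)) (hrec _ (by omega)) (hrec _ (by omega))
      (hrec _ (by omega))
      (fun h => L (n + 8) h) (fun h => L (n + 6) h)
      (fun h => S (n + 5) h) (fun h => S (n + 4) h) (fun h => S (n + 3) h)
      (fun h => S (n + 2) h) (fun h => S n h) hK
    unfold pr
    rw [max_mul_of_nonneg _ _ (by positivity)]
    exact max_le hA.1 hA.2
  · intro q hq H hH hmin h1
    obtain ⟨m, rfl⟩ : ∃ m, q = m + 4 := ⟨q - 4, by omega⟩
    set δ := pr x (m + 4) with hδ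
    have hδ0 : 0 < δ := hD _
    have e1 : x (m + 4) ≤ δ := le_max_left _ _
    have e0 : x (m + 5) ≤ δ := le_max_right _ _
    have hH0 : 0 < H := by linarith
    by_cases hδC : C * δ ≤ 1
    · obtain ⟨s1, s2⟩ := S (m + 1) (by nlinarith [hx (m + 5)])
      obtain ⟨-, s3⟩ := S m (by nlinarith [hx (m + 4)])
      have q1 : m + 1 + 4 = m + 5 := by ring
      have q2 : m + 1 + 3 = m + 4 := by ring
      have q3 : m + 1 + 2 = m + 3 := by ring
      have q4 : m + 1 + 1 = m + 2 := by ring
      rw [q1, q2, q3] at s1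
      rw [q1, q2, q4] at s2
      have hH3 := hH (m + 3) (by omega)
      have hH5 := hH m (by omega)
      have n4 := hx (m + 4)
      have n1 := hx (m + 1)
      have b4 : x (m + 1) ≤ 2 * C * δ * H := by
        have h2 : C * x (m + 4) * (x (m + 3) + x m) ≤ C * δ * (2 * H) := by
          apply mul_le_mul (mul_le_mul_of_nonneg_left e1 hC0.le) (by linarith)
            (by linarith [hx (m + 3), hx m]) (by positivity)
        linarith
      have b5 : C * x (m + 5) * (x (m + 4) + x (m + 1)) ≤ C * δ * (δ + 2 * C * δ * H) := by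
        apply mul_le_mul (mul_le_mul_of_nonneg_left e0 hC0.le) (by linarith)
          (by linarith) (by positivity)
      have hp : pr x (m + 2) ≤ C * δ * (δ + 2 * C * δ * H) := by
        unfold pr
        apply max_le
        · linarith
        · have q5 : m + 2 + 1 = m + 3 := by ring
          rw [q5]; linarith
      have hm2 := hmin (m + 2) (by omega)
      have h3 : δ ≤ C * δ * (δ + 2 * C * δ * H) := hm2.trans hp
      have h4 : 1 ≤ C * (δ + 2 * C * δ * H) := by
        have : δ * 1 ≤ δ * (C * (δ + 2 * C * δ * H)) := by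
          calc δ * 1 = δ := mul_one _
            _ ≤ C * δ * (δ + 2 * C * δ * H) := h3
            _ = δ * (C * (δ + 2 * C * δ * H)) := by ring
        exact le_of_mul_le_mul_left this hδ0
      rw [div_le_iff₀ (by positivity)]
      have h5 : C * (δ + 2 * C * δ * H) ≤ δ * H * (3 * C ^ 2) := by
        have h6 : C * δ ≤ C ^ 2 * (δ * H) := by
          have : C * δ * 1 ≤ C * δ * (C * H) :=
            mul_le_mul_of_nonneg_left (by nlinarith) (by positivity)
          calc C * δ = C * δ * 1 := by ring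
            _ ≤ C * δ * (C * H) := this
            _ = C ^ 2 * (δ * H) := by ring
        calc C * (δ + 2 * C * δ * H) = C * δ + 2 * (C ^ 2 * (δ * H)) := by ring
          _ ≤ C ^ 2 * (δ * H) + 2 * (C ^ 2 * (δ * H)) := by linarith
          _ = δ * H * (3 * C ^ 2) := by ring
      linarith
    · push Not at hδC
      rw [div_le_iff₀ (by positivity)]
      have h6 : 1 ≤ C * δ * (C * H) := by
        have : 1 * 1 ≤ C * δ * (C * H) :=
          mul_le_mul hδC.le (by nlinarith) (by norm_num) (by positivity)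
        linarith
      nlinarith

end Pool.Agent.RatRec
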