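import Pool.Agent.Lib_helper42.Rat.Cases26

/-!
Normalisation of the case (5,24) of problem MP_88c4fb_an.
-/

set_option autoImplicit false

namespace Pool.Agent.RatRec

theorem bdd_5_24_of (H : ∀ a b : ℝ, 0 < a → 0 < b → ∀ x : ℕ → ℝ, (∀ n, 0 < x n) →
    (∀ n, x (n + 4) * (b * x (n + 1) + x n) = a + x (n + 2)) → ∃ M : ℝ, ∀ n, x n ≤ M) :
    BoundedOnly (fs 5) (fs 24) := by
  intro b B hb hB x hx
  have b0 : 0 < b 0 := hb.1 0 (by decide)
  have b1 : b 1 = 0 := hb.2 1 (by decide)
  have b2 : 0 < b 2 := hb.1 2 (by decide)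
  have b3 : b 3 = 0 := hb.2 3 (by decide)
  have b4 : b 4 = 0 := hb.2 4 (by decide)
  have B0 : B 0 = 0 := hB.2 0 (by decide)
  have B1 : B 1 = 0 := hB.2 1 (by decide)
  have B2 : B 2 = 0 := hB.2 2 (by decide)
  have B3 : 0 < B 3 := hB.1 3 (by decide)
  have B4 : 0 < B 4 := hB.1 4 (by decide)
  have hn := hx.nonneg hb.nonneg
  have hden : ∀ n, 0 < B 3 * x (n + 1) + B 4 * x n := by
    intro n
    have := hx.den_pos n
    simp only [lin, B0, B1, B2, zero_add, zero_mul, add_zero] at this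
    exact this
  have heq : ∀ n, x (n + 4) * (B 3 * x (n + 1) + B 4 * x n) = b 0 + b 2 * x (n + 2) := by
    intro n
    have h1 := hx.step n
    have h2 := hx.den_pos n
    rw [eq_div_iff h2.ne'] at h1
    simp only [lin, b1, b3, b4, B0, B1, B2, zero_add, zero_mul, add_zero] at h1
    exact h1
  have hpos : ∀ n, 0 < x (n + 4) := by
    intro n
    have e := heq n
    have d := hden n
    have r : 0 < b 0 + b 2 * x (n + 2) := by
      have := mul_nonneg b2.le (hn (n + 2))
      linarith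
    rw [← e] at r
    exact (mul_pos_iff_of_pos_right d).mp r
  obtain ⟨c, hc⟩ : ∃ c : ℝ, c = B 4 / b 2 := ⟨_, rfl⟩
  have hc0 : 0 < c := by rw [hc]; positivity
  have ec : b 2 * c = B 4 := by rw [hc]; field_simp
  obtain ⟨M, hM⟩ := H (b 0 * c ^ 2 / B 4) (B 3 / B 4) (by positivity) (by positivity)
    (fun n => c * x (n + 4)) (fun n => mul_pos hc0 (hpos n)) (fun n => by
      have e := heq (n + 4)
      have q : c * x (n + 4 + 4) * (B 3 / B 4 * (c * x (n + 4 + 1)) + c * x (n + 4)) * B 4 =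
          (b 0 * c ^ 2 / B 4 + c * x (n + 4 + 2)) * B 4 := by
        have l : c * x (n + 4 + 4) * (B 3 / B 4 * (c * x (n + 4 + 1)) + c * x (n + 4)) * B 4 =
            c ^ 2 * (x (n + 4 + 4) * (B 3 * x (n + 4 + 1) + B 4 * x (n + 4))) := by
          field_simp
        have r : (b 0 * c ^ 2 / B 4 + c * x (n + 4 + 2)) * B 4 =
            b 0 * c ^ 2 + B 4 * (c * x (n + 4 + 2)) := by
          field_simp
        rw [l, r, e, ← ec]
        ring
      exact mul_right_cancel₀ B4.ne' q)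
  refine bdd_of_shift (M := M / c) 4 (fun n => ?_)
  rw [le_div_iff₀ hc0]
  have := hM n
  linarith

end Pool.Agent.RatRec
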